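import Mathlib

/-!
Lebesgue preserving maps of the unit interval: basic definitions and glueing.
-/

namespace Pool.Agent.R819.GD

open MeasureTheory Set Topology
open scoped ENNReal

/-- Lebesgue measure on `[0,1]`, as a measure on the real line. -/
noncomputable def lam : Measure ℝ := volume.restrict (Icc 0 1)

instance : IsProbabilityMeasure lam := ⟨by simp [lam]⟩

/-- the retraction of the line onto `[0,1]` -/
noncomputable def cl (x : ℝ) : ℝ := max 0 (min 1 x)

lemma cl_mem (x : ℝ) : cl x ∈ Icc (0 : ℝ) 1 :=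
  ⟨le_max_left _ _, max_le zero_le_one (min_le_left _ _)⟩

lemma cl_of_mem {x : ℝ} (hx : x ∈ Icc (0 : ℝ) 1) : cl x = x := by
  unfold cl
  rw [min_eq_right hx.2, max_eq_right hx.1]

lemma continuous_cl : Continuous cl := by
  unfold cl
  fun_prop

/-- Continuous Lebesgue preserving maps of the interval (extended to the line). -/
structure CL (f : ℝ → ℝ) : Prop where
  cont : Continuous f
  maps : ∀ x, f x ∈ Icc (0 : ℝ) 1
  clamp : ∀ x, f (cl x) = f x
  pres : ∀ A, MeasurableSet A → lam (f ⁻¹' A) = lam A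

lemma CL.mp {f : ℝ → ℝ} (h : CL f) : MeasurePreserving f lam lam := by
  refine ⟨h.cont.measurable, ?_⟩
  ext A hA
  rw [Measure.map_apply h.cont.measurable hA]
  exact h.pres A hA

lemma lam_singleton (x : ℝ) : lam {x} = 0 := by
  unfold lam
  rw [Measure.restrict_apply (measurableSet_singleton x)]
  exact measure_mono_null inter_subset_left (by simp)

lemma lam_apply {A : Set ℝ} (hA : MeasurableSet A) : lam A = volume (Ico (0 : ℝ) 1 ∩ A) := by
  unfold lam
  rw [Measure.restrict_apply hA, inter_comm]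
  refine measure_congr ?_
  exact (Ico_ae_eq_Icc (μ := volume) (a := (0:ℝ)) (b := 1)).symm.inter (ae_eq_refl A)

lemma lam_Ici {y : ℝ} (hy : y ∈ Icc (0 : ℝ) 1) : lam (Ici y) = ENNReal.ofReal (1 - y) := by
  unfold lam
  rw [Measure.restrict_apply measurableSet_Ici]
  have : Ici y ∩ Icc (0:ℝ) 1 = Icc y 1 := by
    ext x
    rw [mem_inter_iff, mem_Ici, mem_Icc, mem_Icc]
    constructor
    · intro h; exact ⟨h.1, h.2.2⟩
    · intro h; exact ⟨h.1, hy.1.trans h.1, h.2⟩
  rw [this]
  simp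

lemma lam_univ' {S : Set ℝ} (h : ∀ x ∈ Icc (0 : ℝ) 1, x ∈ S) : lam S = 1 := by
  have h1 : lam Sᶜ = 0 := by
    unfold lam
    rw [Measure.restrict_apply_eq_zero' measurableSet_Icc]
    have : Sᶜ ∩ Icc (0:ℝ) 1 = ∅ := by
      ext x
      simp only [mem_inter_iff, mem_compl_iff, mem_empty_iff_false, iff_false, not_and]
      intro h1 h2
      exact h1 (h x h2)
    rw [this]
    simp
  have h2 : S =ᵐ[lam] univ := by
    rw [ae_eq_univ]
    exact h1
  rw [measure_congr h2, measure_univ]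

lemma lam_congr {S T : Set ℝ} (h : ∀ x ∈ Icc (0 : ℝ) 1, (x ∈ S ↔ x ∈ T)) : lam S = lam T := by
  unfold lam
  rw [Measure.restrict_apply' measurableSet_Icc, Measure.restrict_apply' measurableSet_Icc]
  congr 1
  ext x
  constructor
  · rintro ⟨h1, h2⟩
    exact ⟨(h x h2).1 h1, h2⟩
  · rintro ⟨h1, h2⟩
    exact ⟨(h x h2).2 h1, h2⟩

/-- it is enough to check closed half lines -/
lemma pres_of_Ici {f : ℝ → ℝ} (hf : Measurable f) (hm : ∀ x, f x ∈ Icc (0 : ℝ) 1)
    (h : ∀ y ∈ Ioc (0 : ℝ) 1, lam (f ⁻¹' Ici y) = ENNReal.ofReal (1 - y)) :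
    ∀ A, MeasurableSet A → lam (f ⁻¹' A) = lam A := by
  have : Measure.map f lam = lam := by
    have hprob : IsProbabilityMeasure (Measure.map f lam) :=
      Measure.isProbabilityMeasure_map hf.aemeasurable
    refine Measure.ext_of_Ici _ _ (fun y => ?_)
    rw [Measure.map_apply hf measurableSet_Ici]
    rcases le_or_gt y 0 with hy | hy
    · rw [lam_univ' (S := f ⁻¹' Ici y) (fun x _ => hy.trans (hm x).1),
        lam_univ' (S := Ici y) (fun x hx => hy.trans hx.1)]
    · by_cases hy1 : y ≤ 1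
      · rw [h y ⟨hy, hy1⟩, lam_Ici ⟨hy.le, hy1⟩]
      · push Not at hy1
        have h1 : f ⁻¹' Ici y = ∅ := by
          ext x; simp only [mem_preimage, mem_Ici, mem_empty_iff_false, iff_false, not_le]
          exact (hm x).2.trans_lt hy1
        rw [h1, measure_empty]
        unfold lam
        rw [Measure.restrict_apply measurableSet_Ici]
        have : Ici y ∩ Icc (0:ℝ) 1 = ∅ := by
          ext x; simp only [mem_inter_iff, mem_Ici, mem_Icc, mem_empty_iff_false, iff_false, not_and]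
          intro h h'; linarith
        rw [this]
        simp
  intro A hA
  rw [← Measure.map_apply hf hA, this]

/-- pointwise limits (with continuous limit) of Lebesgue preserving maps -/
lemma CL.of_tendsto {fs : ℕ → ℝ → ℝ} {f : ℝ → ℝ} (h : ∀ n, CL (fs n)) (hc : Continuous f)
    (ht : ∀ x, Filter.Tendsto (fun n => fs n x) Filter.atTop (𝓝 (f x))) : CL f := by
  refine ⟨hc, fun x => ?_, fun x => ?_, ?_⟩
  · exact isClosed_Icc.mem_of_tendsto (ht x) (Filter.Eventually.of_forall (fun n => (h n).maps x))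
  · refine tendsto_nhds_unique (ht (cl x)) ?_
    simpa only [(h _).clamp x] using ht x
  · have hprob : IsProbabilityMeasure (Measure.map f lam) :=
      Measure.isProbabilityMeasure_map hc.aemeasurable
    have key : Measure.map f lam = lam := by
      refine ext_of_forall_integral_eq_of_IsFiniteMeasure (fun φ => ?_)
      rw [integral_map hc.aemeasurable φ.continuous.aestronglyMeasurable]
      have h1 : Filter.Tendsto (fun n => ∫ x, φ (fs n x) ∂lam) Filter.atTop
          (𝓝 (∫ x, φ (f x) ∂lam)) := by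
        refine tendsto_integral_of_dominated_convergence (fun _ => ‖φ‖) ?_ ?_ ?_ ?_
        · intro n
          exact (φ.continuous.comp (h n).cont).aestronglyMeasurable
        · exact integrable_const _
        · intro n
          exact Filter.Eventually.of_forall (fun x => φ.norm_coe_le_norm _)
        · exact Filter.Eventually.of_forall (fun x => (φ.continuous.tendsto _).comp (ht x))
      have h2 : ∀ n, ∫ x, φ (fs n x) ∂lam = ∫ x, φ x ∂lam := by
        intro n
        have := integral_map (μ := lam) (h n).cont.aemeasurable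
          (f := φ) φ.continuous.aestronglyMeasurable
        rw [(h n).mp.map_eq] at this
        exact this.symm
      simp only [h2] at h1
      exact tendsto_nhds_unique h1 tendsto_const_nhds
    intro A hA
    rw [← Measure.map_apply hc.measurable hA, key]

lemma CL.comp {f g : ℝ → ℝ} (hf : CL f) (hg : CL g) : CL (f ∘ g) := by
  refine ⟨hf.cont.comp hg.cont, fun x => hf.maps _, fun x => ?_, fun A hA => ?_⟩
  · simp only [Function.comp_apply, hg.clamp]
  · rw [preimage_comp, hg.pres _ (hf.cont.measurable hA), hf.pres _ hA]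

/-- glueing of profiles `h 0, ..., h (M-1)` over the cells `[i/M, (i+1)/M]` -/
noncomputable def glue (M : ℕ) (h : ℕ → ℝ → ℝ) (x : ℝ) : ℝ :=
  h (min ⌊M * cl x⌋₊ (M - 1)) (M * cl x - (min ⌊M * cl x⌋₊ (M - 1) : ℕ))

variable {M : ℕ} {h : ℕ → ℝ → ℝ}

lemma glue_cl (x : ℝ) : glue M h (cl x) = glue M h x := by
  unfold glue
  rw [cl_of_mem (cl_mem x)]

lemma glue_Ico {i : ℕ} (hi : i < M) {x : ℝ} (hx : x ∈ Ico ((i : ℝ) / M) ((i + 1) / M)) :
    glue M h x = h i (M * x - i) := by
  have hM : (0 : ℝ) < M := by exact_mod_cast (Nat.zero_le i).trans_lt hi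
  have h1 : (i : ℝ) ≤ M * x := by
    have := hx.1
    rw [div_le_iff₀ hM] at this
    linarith
  have h2 : M * x < i + 1 := by
    have := hx.2
    rw [lt_div_iff₀ hM] at this
    linarith
  have hiM : (i : ℝ) + 1 ≤ M := by exact_mod_cast hi
  have hx01 : x ∈ Icc (0 : ℝ) 1 := by
    refine ⟨le_trans (by positivity) hx.1, hx.2.le.trans ?_⟩
    rw [div_le_one hM]
    exact hiM
  have hfl : ⌊(M : ℝ) * x⌋₊ = i := by
    rw [Nat.floor_eq_iff (by linarith [(Nat.cast_nonneg i : (0:ℝ) ≤ i)])]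
    exact ⟨h1, h2⟩
  unfold glue
  rw [cl_of_mem hx01, hfl, min_eq_left (by omega)]

lemma glue_Icc (hmatch : ∀ i, i + 1 < M → h i 1 = h (i + 1) 0) {i : ℕ} (hi : i < M) {x : ℝ}
    (hx : x ∈ Icc ((i : ℝ) / M) ((i + 1) / M)) : glue M h x = h i (M * x - i) := by
  have hM : (0 : ℝ) < M := by exact_mod_cast (Nat.zero_le i).trans_lt hi
  rcases lt_or_eq_of_le hx.2 with h1 | h1
  · exact glue_Ico hi ⟨hx.1, h1⟩
  · have hMx : M * x = i + 1 := by rw [h1]; field_simp
    rcases lt_or_eq_of_le (Nat.succ_le_of_lt hi) with h2 | h2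
    · have h3 : x ∈ Ico (((i + 1 : ℕ) : ℝ) / M) (((i + 1 : ℕ) + 1) / M) := by
        rw [h1]
        push_cast
        refine ⟨le_rfl, ?_⟩
        apply div_lt_div_of_pos_right _ hM
        linarith
      rw [glue_Ico h2 h3]
      have e1 : (M : ℝ) * x - ((i + 1 : ℕ) : ℝ) = 0 := by rw [hMx]; push_cast; ring
      have e2 : (M : ℝ) * x - (i : ℝ) = 1 := by rw [hMx]; ring
      rw [e1, e2]
      exact (hmatch i h2).symm
    · have h2' : i + 1 = M := h2
      have hx1 : x = 1 := by
        rw [h1, ← h2']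
        push_cast
        field_simp
      have hfl : ⌊(M : ℝ) * x⌋₊ = M := by rw [hx1, mul_one, Nat.floor_natCast]
      unfold glue
      rw [cl_of_mem (by rw [hx1]; simp), hfl]
      have e : min M (M - 1) = i := by omega
      rw [e]

lemma exists_cell (hM : 0 < M) {x : ℝ} (hx : x ∈ Icc (0 : ℝ) 1) :
    ∃ i < M, x ∈ Icc ((i : ℝ) / M) ((i + 1) / M) := by
  have hM' : (0 : ℝ) < M := by exact_mod_cast hM
  rcases lt_or_eq_of_le hx.2 with h1 | h1
  · refine ⟨⌊M * x⌋₊, ?_, ?_, ?_⟩
    · rw [Nat.floor_lt (mul_nonneg hM'.le hx.1)]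
      nlinarith
    · rw [div_le_iff₀ hM', mul_comm x]
      exact Nat.floor_le (mul_nonneg hM'.le hx.1)
    · rw [le_div_iff₀ hM', mul_comm x]
      exact (Nat.lt_floor_add_one _).le
  · refine ⟨M - 1, by omega, ?_⟩
    have : ((M - 1 : ℕ) : ℝ) = M - 1 := by
      rw [Nat.cast_sub (by omega)]; simp
    rw [this, h1]
    constructor
    · rw [div_le_one hM']; linarith
    · rw [le_div_iff₀ hM']; linarith

lemma glue_continuous (hM : 0 < M) (hc : ∀ i < M, Continuous (h i))
    (hmatch : ∀ i, i + 1 < M → h i 1 = h (i + 1) 0) : Continuous (glue M h) := by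
  have h1 : ContinuousOn (glue M h) (⋃ i : Fin M, Icc ((i : ℝ) / M) ((i + 1) / M)) := by
    refine LocallyFinite.continuousOn_iUnion (locallyFinite_of_finite _) (fun i => isClosed_Icc)
      (fun i => ?_)
    have h2 : ContinuousOn (fun x : ℝ => h i (M * x - i)) (Icc ((i : ℝ) / M) ((i + 1) / M)) :=
      ((hc i i.2).comp (by fun_prop)).continuousOn
    exact h2.congr (fun x hx => glue_Icc hmatch i.2 hx)
  have h3 : Icc (0 : ℝ) 1 ⊆ ⋃ i : Fin M, Icc ((i : ℝ) / M) ((i + 1) / M) := by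
    intro x hx
    obtain ⟨i, hi, hxi⟩ := exists_cell hM hx
    exact mem_iUnion.2 ⟨⟨i, hi⟩, hxi⟩
  have h4 : Continuous (fun x => glue M h (cl x)) :=
    (h1.mono h3).comp_continuous continuous_cl cl_mem
  simpa only [glue_cl] using h4

lemma glue_mem {S : Set ℝ} (hM : 0 < M) (hmatch : ∀ i, i + 1 < M → h i 1 = h (i + 1) 0)
    (hS : ∀ i < M, ∀ t ∈ Icc (0 : ℝ) 1, h i t ∈ S) (x : ℝ) : glue M h x ∈ S := by
  rw [← glue_cl]
  obtain ⟨i, hi, hx⟩ := exists_cell hM (cl_mem x)
  have hM' : (0 : ℝ) < M := by exact_mod_cast hM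
  rw [glue_Icc hmatch hi hx]
  apply hS i hi
  constructor
  · have := hx.1
    rw [div_le_iff₀ hM'] at this
    linarith
  · have := hx.2
    rw [le_div_iff₀ hM'] at this
    linarith

/-- change of variables on a cell -/
lemma volume_cell (hM : 0 < M) (i : ℕ) (S : Set ℝ) :
    volume ((fun x : ℝ => M * x - i) ⁻¹' S) = ENNReal.ofReal (1 / M) * volume S := by
  have hM' : (0 : ℝ) < M := by exact_mod_cast hM
  have h1 : (fun x : ℝ => M * x - i) ⁻¹' S = (fun x : ℝ => (M : ℝ) * x) ⁻¹' ((fun y : ℝ => y - i) ⁻¹' S) :=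
    rfl
  rw [h1, Real.volume_preimage_mul_left hM'.ne', abs_of_pos (inv_pos.2 hM'), one_div]
  congr 1
  simp only [sub_eq_add_neg]
  exact measure_preimage_add_right volume (-(i : ℝ)) S

lemma measurableSet_inter_cell {A : Set ℝ} {g : ℝ → ℝ} (hg : Measurable g) (hA : MeasurableSet A)
    (i : ℕ) : MeasurableSet (Ico ((i : ℝ) / M) ((i + 1) / M) ∩ g ⁻¹' A) :=
  measurableSet_Ico.inter (hg hA)

lemma cell_measure (hM : 0 < M) {g : ℝ → ℝ} {i : ℕ} {k : ℝ → ℝ} (hk : Measurable k)
    (hgk : ∀ x ∈ Ico ((i : ℝ) / M) ((i + 1) / M), g x = k (M * x - i)) {A : Set ℝ}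
    (hA : MeasurableSet A) :
    volume (Ico ((i : ℝ) / M) ((i + 1) / M) ∩ g ⁻¹' A) =
      ENNReal.ofReal (1 / M) * lam (k ⁻¹' A) := by
  have hM' : (0 : ℝ) < M := by exact_mod_cast hM
  rw [lam_apply (hk hA), ← volume_cell hM i]
  congr 1
  ext x
  have hx : x ∈ Ico ((i : ℝ) / M) ((i + 1) / M) ↔ (M : ℝ) * x - i ∈ Ico (0 : ℝ) 1 := by
    rw [mem_Ico, mem_Ico, div_le_iff₀ hM', lt_div_iff₀ hM']
    constructor
    · rintro ⟨h1, h2⟩; constructor <;> linarith
    · rintro ⟨h1, h2⟩; constructor <;> linarith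
  constructor
  · rintro ⟨h1, h2⟩
    refine ⟨hx.1 h1, ?_⟩
    rw [mem_preimage, ← hgk x h1]
    exact h2
  · rintro ⟨h1, h2⟩
    refine ⟨hx.2 h1, ?_⟩
    rw [mem_preimage, hgk x (hx.2 h1)]
    exact h2

lemma volume_Ico_eq_sum (hM : 0 < M) {B : Set ℝ} (hB : MeasurableSet B) :
    volume (Ico (0 : ℝ) 1 ∩ B) =
      ∑ i ∈ Finset.range M, volume (Ico ((i : ℝ) / M) ((i + 1) / M) ∩ B) := by
  have hM' : (0 : ℝ) < M := by exact_mod_cast hM
  have h1 : Ico (0 : ℝ) 1 ∩ B = ⋃ i ∈ Finset.range M, (Ico ((i : ℝ) / M) ((i + 1) / M) ∩ B) := by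
    ext x
    simp only [mem_inter_iff, mem_iUnion, Finset.mem_range, exists_prop]
    constructor
    · rintro ⟨hx, hxB⟩
      refine ⟨⌊M * x⌋₊, ?_, ⟨?_, ?_⟩, hxB⟩
      · rw [Nat.floor_lt (mul_nonneg hM'.le hx.1)]
        nlinarith [hx.2]
      · rw [div_le_iff₀ hM', mul_comm x]
        exact Nat.floor_le (mul_nonneg hM'.le hx.1)
      · rw [lt_div_iff₀ hM', mul_comm x]
        exact Nat.lt_floor_add_one _
    · rintro ⟨i, hi, hx, hxB⟩
      refine ⟨⟨le_trans (by positivity) hx.1, hx.2.trans_le ?_⟩, hxB⟩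
      rw [div_le_one hM']
      exact_mod_cast hi
  rw [h1, measure_biUnion_finset]
  · intro i _ j _ hij
    rw [Function.onFun, Set.disjoint_left]
    rintro x ⟨hx, -⟩ ⟨hx', -⟩
    apply hij
    have a1 := hx.1; have a2 := hx.2; have a3 := hx'.1; have a4 := hx'.2
    rw [div_le_iff₀ hM'] at a1 a3
    rw [lt_div_iff₀ hM'] at a2 a4
    have b1 : (i : ℝ) < j + 1 := by linarith
    have b2 : (j : ℝ) < i + 1 := by linarith
    have c1 : i < j + 1 := by exact_mod_cast b1
    have c2 : j < i + 1 := by exact_mod_cast b2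
    omega
  · intro i _
    exact measurableSet_Ico.inter hB

/-- the distribution of a glued function -/
lemma glue_measure (hM : 0 < M) (hm : ∀ i < M, Measurable (h i))
    (hg : Measurable (glue M h)) {A : Set ℝ} (hA : MeasurableSet A) :
    lam (glue M h ⁻¹' A) = ENNReal.ofReal (1 / M) * ∑ i ∈ Finset.range M, lam (h i ⁻¹' A) := by
  rw [lam_apply (hg hA), volume_Ico_eq_sum hM (hg hA), Finset.mul_sum]
  refine Finset.sum_congr rfl (fun i hi => ?_)
  have hi' : i < M := Finset.mem_range.1 hi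
  exact cell_measure hM (hm i hi') (fun x hx => glue_Ico hi' hx) hA

end Pool.Agent.R819.GD
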