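import Pool.Agent.R819.GD.Self

/-!
Profiles of Lebesgue preserving maps over grid cells, and the hull of a profile.
-/

namespace Pool.Agent.R819.GD

open MeasureTheory Set Topology Filter

/-- the profile of `f` on the cell `i` of the grid of mesh `1/M` -/
noncomputable def pf (f : ℝ → ℝ) (M i : ℕ) (t : ℝ) : ℝ := f ((i + t) / M)

/-- half open cells -/
def J (N l : ℕ) : Set ℝ := Ico ((l : ℝ) / N) ((l + 1) / N)

lemma J_meas (N l : ℕ) : MeasurableSet (J N l) := measurableSet_Ico

variable {f : ℝ → ℝ}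

lemma pf_cont (hf : Continuous f) (M i : ℕ) : Continuous (pf f M i) := by
  unfold pf
  fun_prop

lemma sum_pf (hf : CL f) {M : ℕ} (hM : 0 < M) {A : Set ℝ} (hA : MeasurableSet A) :
    ∑ i ∈ Finset.range M, lam.real (pf f M i ⁻¹' A) = M * lam.real A := by
  have hM' : (0 : ℝ) < M := by exact_mod_cast hM
  have h1 := lam_cells hM (hf.cont.measurable hA)
  rw [hf.pres_real hA] at h1
  have h2 : ∀ i ∈ Finset.range M, lam.real ((fun t : ℝ => (i + t) / M) ⁻¹' (f ⁻¹' A)) =
      lam.real (pf f M i ⁻¹' A) := fun i _ => rfl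
  rw [Finset.sum_congr rfl h2] at h1
  rw [h1]
  field_simp

lemma pf_null (hf : CL f) {M i : ℕ} (hi : i < M) (y : ℝ) : lam.real (pf f M i ⁻¹' {y}) = 0 := by
  have hM : 0 < M := (Nat.zero_le i).trans_lt hi
  have h1 := sum_pf hf hM (measurableSet_singleton y)
  have h2 : lam.real {y} = 0 := by
    unfold Measure.real
    rw [lam_singleton]
    simp
  rw [h2, mul_zero, Finset.sum_eq_zero_iff_of_nonneg (fun i _ => measureReal_nonneg)] at h1
  exact h1 i (Finset.mem_range.2 hi)

lemma sub_pf {N R : ℕ} (hN : 0 < N) (hR : 0 < R) (hf : Continuous f) (j : ℕ) {B : Set ℝ}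
    (hB : MeasurableSet B) :
    lam.real (pf f N j ⁻¹' B) =
      (1 / R) * ∑ r ∈ Finset.range R, lam.real (pf f (N * R) (j * R + r) ⁻¹' B) := by
  have hN' : (0 : ℝ) < N := by exact_mod_cast hN
  have hR' : (0 : ℝ) < R := by exact_mod_cast hR
  rw [lam_cells hR ((pf_cont hf N j).measurable hB)]
  congr 1
  refine Finset.sum_congr rfl (fun r _ => ?_)
  congr 1
  ext t
  rw [mem_preimage, mem_preimage, mem_preimage]
  unfold pf
  have : ((j : ℝ) + (r + t) / R) / N = (((j * R + r : ℕ) : ℝ) + t) / ((N * R : ℕ) : ℝ) := by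
    push_cast
    field_simp
    ring
  rw [this]

lemma mem_J_unique {N l l' : ℕ} (hN : 0 < N) {x : ℝ} (h : x ∈ J N l) (h' : x ∈ J N l') : l = l' := by
  have hM' : (0 : ℝ) < N := by exact_mod_cast hN
  have a1 := h.1; have a2 := h.2; have a3 := h'.1; have a4 := h'.2
  rw [div_le_iff₀ hM'] at a1 a3
  rw [lt_div_iff₀ hM'] at a2 a4
  have b1 : (l : ℝ) < l' + 1 := by linarith
  have b2 : (l' : ℝ) < l + 1 := by linarith
  have c1 : l < l' + 1 := by exact_mod_cast b1
  have c2 : l' < l + 1 := by exact_mod_cast b2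
  omega

lemma exists_mem_J {N : ℕ} (hN : 0 < N) {x : ℝ} (hx : x ∈ Ico (0 : ℝ) 1) : ∃ l < N, x ∈ J N l := by
  have hM' : (0 : ℝ) < N := by exact_mod_cast hN
  refine ⟨⌊N * x⌋₊, ?_, ?_, ?_⟩
  · rw [Nat.floor_lt (mul_nonneg hM'.le hx.1)]
    nlinarith [hx.2]
  · rw [div_le_iff₀ hM', mul_comm x]
    exact Nat.floor_le (mul_nonneg hM'.le hx.1)
  · rw [lt_div_iff₀ hM', mul_comm x]
    exact Nat.lt_floor_add_one _

lemma J_subset {N l : ℕ} (hl : l < N) : J N l ⊆ Ico 0 1 := by
  have hM' : (0 : ℝ) < N := by exact_mod_cast (Nat.zero_le l).trans_lt hl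
  intro x hx
  refine ⟨le_trans (by positivity) hx.1, hx.2.trans_le ?_⟩
  rw [div_le_one hM']
  exact_mod_cast hl

lemma sum_J {N : ℕ} (hN : 0 < N) {h : ℝ → ℝ} (hh : Measurable h)
    (hmaps : ∀ t ∈ Icc (0 : ℝ) 1, h t ∈ Icc (0 : ℝ) 1) (hnull : lam.real (h ⁻¹' {1}) = 0) :
    ∑ l ∈ Finset.range N, lam.real (h ⁻¹' J N l) = 1 := by
  rw [← measureReal_biUnion_finset]
  · have h1 : lam.real ((⋃ l ∈ Finset.range N, h ⁻¹' J N l) ∪ h ⁻¹' {1}) = 1 := by
      unfold Measure.real
      rw [lam_univ']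
      · simp
      · intro t ht
        have h2 := hmaps t ht
        rcases h2.2.lt_or_eq with h3 | h3
        · left
          obtain ⟨l, hl, hl'⟩ := exists_mem_J hN ⟨h2.1, h3⟩
          simp only [mem_iUnion, Finset.mem_range, mem_preimage]
          exact ⟨l, hl, hl'⟩
        · right
          exact h3
    have h2 := measureReal_union_le (μ := lam) (⋃ l ∈ Finset.range N, h ⁻¹' J N l) (h ⁻¹' {1})
    rw [h1, hnull, add_zero] at h2
    exact le_antisymm measureReal_le_one h2
  · intro i _ j _ hij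
    rw [Function.onFun, Set.disjoint_left]
    intro t h1 h2
    exact hij (mem_J_unique hN h1 h2)
  · intro l _
    exact hh (J_meas N l)

lemma lam_J {N l : ℕ} (hl : l < N) : lam.real (J N l) = 1 / N := by
  have hN : 0 < N := (Nat.zero_le l).trans_lt hl
  have hM' : (0 : ℝ) < N := by exact_mod_cast hN
  unfold Measure.real lam
  rw [Measure.restrict_apply (J_meas N l),
    inter_eq_left.2 ((J_subset hl).trans Ico_subset_Icc_self)]
  unfold J
  rw [Real.volume_Ico, ENNReal.toReal_ofReal]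
  · field_simp
    ring
  · have : ((l : ℝ) + 1) / N - l / N = 1 / N := by field_simp; ring
    rw [this]
    positivity

/-- open sets meeting the interval have positive measure -/
lemma lam_pos_of_open {U : Set ℝ} (hU : IsOpen U) {t : ℝ} (ht : t ∈ Icc (0 : ℝ) 1) (htU : t ∈ U) :
    0 < lam.real U := by
  have h1 : t ∈ closure (Ioo (0 : ℝ) 1) := by
    rw [closure_Ioo (by norm_num)]
    exact ht
  have h2 : (U ∩ Ioo (0 : ℝ) 1).Nonempty := mem_closure_iff.1 h1 U hU htU
  have h3 : 0 < volume (U ∩ Ioo (0 : ℝ) 1) := (hU.inter isOpen_Ioo).measure_pos _ h2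
  have h4 : volume (U ∩ Ioo (0 : ℝ) 1) ≤ lam U := by
    unfold lam
    rw [Measure.restrict_apply' measurableSet_Icc]
    exact measure_mono (inter_subset_inter_right _ Ioo_subset_Icc_self)
  unfold Measure.real
  exact ENNReal.toReal_pos (h3.trans_le h4).ne' (measure_ne_top _ _)

/-- the hull of a profile -/
lemma hull (hf : CL f) {N j : ℕ} (hj : j < N) {ω : ℝ}
    (hω : ∀ x ∈ Icc (0 : ℝ) 1, ∀ y ∈ Icc (0 : ℝ) 1, |x - y| ≤ 1 / N → |f x - f y| ≤ ω) :
    ∃ lo hi : ℕ, lo < hi ∧ hi ≤ N ∧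
      (∀ t ∈ Icc (0 : ℝ) 1, pf f N j t ∈ Icc ((lo : ℝ) / N) ((hi : ℝ) / N)) ∧
      (∀ l, lo ≤ l → l < hi → 0 < lam.real (pf f N j ⁻¹' J N l)) ∧
      (∀ l, (l < lo ∨ hi ≤ l) → lam.real (pf f N j ⁻¹' J N l) = 0) ∧
      (hi : ℝ) / N - lo / N ≤ ω + 2 / N := by
  have hN : 0 < N := (Nat.zero_le j).trans_lt hj
  have hN' : (0 : ℝ) < N := by exact_mod_cast hN
  have hpc := pf_cont hf.cont N j
  obtain ⟨s, hs, hsmin⟩ := isCompact_Icc.exists_isMinOn (nonempty_Icc.2 (zero_le_one (α := ℝ)))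
    hpc.continuousOn
  obtain ⟨e, he, hemax⟩ := isCompact_Icc.exists_isMaxOn (nonempty_Icc.2 (zero_le_one (α := ℝ)))
    hpc.continuousOn
  set α := pf f N j s with hα
  set β := pf f N j e with hβ
  have hmin : ∀ t ∈ Icc (0 : ℝ) 1, α ≤ pf f N j t := fun t ht => hsmin ht
  have hmax : ∀ t ∈ Icc (0 : ℝ) 1, pf f N j t ≤ β := fun t ht => hemax ht
  have hα0 : 0 ≤ α := (hf.maps _).1
  have hβ1 : β ≤ 1 := (hf.maps _).2
  have hαβ : α < β := by
    rcases (hmin e he).lt_or_eq with h1 | h1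
    · exact h1
    · exfalso
      have h2 := pf_null hf hj α
      have h3 : lam (pf f N j ⁻¹' {α}) = 1 := lam_univ' (fun t ht =>
        le_antisymm ((hmax t ht).trans h1.symm.le) (hmin t ht))
      unfold Measure.real at h2
      rw [h3] at h2
      simp at h2
  have hcell : ∀ t ∈ Icc (0 : ℝ) 1, (j + t) / N ∈ Icc (0 : ℝ) 1 := by
    intro t ht
    have h1 : (j : ℝ) + 1 ≤ N := by exact_mod_cast hj
    refine ⟨by have := ht.1; positivity, ?_⟩
    rw [div_le_one hN']
    linarith [ht.2]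
  have hβα : β - α ≤ ω := by
    have h1 := hω _ (hcell e he) _ (hcell s hs) (by
      have : ((j : ℝ) + e) / N - (j + s) / N = (e - s) / N := by ring
      rw [this, abs_div, abs_of_pos hN']
      apply div_le_div_of_nonneg_right _ hN'.le
      rw [abs_le]
      constructor <;> linarith [hs.1, hs.2, he.1, he.2])
    exact (le_abs_self _).trans h1
  have hNα : 0 ≤ (N : ℝ) * α := mul_nonneg hN'.le hα0
  refine ⟨⌊N * α⌋₊, ⌈N * β⌉₊, ?_, ?_, ?_, ?_, ?_, ?_⟩
  · have h1 : ((⌊N * α⌋₊ : ℕ) : ℝ) < (⌈N * β⌉₊ : ℕ) :=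
      (Nat.floor_le hNα).trans_lt ((mul_lt_mul_of_pos_left hαβ hN').trans_le (Nat.le_ceil _))
    exact_mod_cast h1
  · rw [Nat.ceil_le]
    nlinarith
  · intro t ht
    constructor
    · rw [div_le_iff₀ hN', mul_comm (pf f N j t)]
      exact (Nat.floor_le hNα).trans (mul_le_mul_of_nonneg_left (hmin t ht) hN'.le)
    · rw [le_div_iff₀ hN', mul_comm]
      exact (mul_le_mul_of_nonneg_left (hmax t ht) hN'.le).trans (Nat.le_ceil _)
  · intro l hl1 hl2
    have h1 : (N : ℝ) * α < l + 1 := by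
      have := Nat.lt_floor_add_one ((N : ℝ) * α)
      have h2 : ((⌊N * α⌋₊ : ℕ) : ℝ) ≤ l := by exact_mod_cast hl1
      linarith
    have h2 : (l : ℝ) < N * β := Nat.lt_ceil.1 hl2
    set a := max α (l / N) with ha
    set b := min β ((l + 1) / N) with hb
    have hab : a < b := by
      rw [ha, hb, lt_min_iff, max_lt_iff, max_lt_iff]
      refine ⟨⟨hαβ, ?_⟩, ?_, ?_⟩
      · rw [div_lt_iff₀ hN', mul_comm]; exact h2
      · rw [lt_div_iff₀ hN', mul_comm]; exact h1
      · apply div_lt_div_of_pos_right _ hN'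
        linarith
    have hmid : (a + b) / 2 ∈ Icc α β := by
      have h3 : α ≤ a := le_max_left _ _
      have h4 : b ≤ β := min_le_left _ _
      constructor <;> linarith
    have hIVT : Icc α β ⊆ pf f N j '' uIcc s e :=
      (Icc_subset_uIcc).trans (intermediate_value_uIcc hpc.continuousOn)
    obtain ⟨t, ht, hteq⟩ := hIVT hmid
    have ht01 : t ∈ Icc (0 : ℝ) 1 := by
      have := (uIcc_subset_Icc hs he) ht
      exact this
    have hopen : IsOpen (pf f N j ⁻¹' Ioo a b) := isOpen_Ioo.preimage hpc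
    have hpos := lam_pos_of_open hopen ht01 (by
      rw [mem_preimage, hteq]
      exact ⟨by linarith, by linarith⟩)
    refine hpos.trans_le (measureReal_mono (preimage_mono (fun z hz => ?_)))
    exact ⟨(le_max_right α ((l : ℝ) / N)).trans hz.1.le, hz.2.trans_le (min_le_right _ _)⟩
  · intro l hl
    rcases hl with hl | hl
    · have h1 : ((l : ℝ) + 1) / N ≤ α := by
        rw [div_le_iff₀ hN', mul_comm α]
        have h2 : ((l + 1 : ℕ) : ℝ) ≤ (⌊N * α⌋₊ : ℕ) := by exact_mod_cast hl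
        have h3 := Nat.floor_le hNα
        push_cast at h2
        linarith
      have h2 : lam.real (pf f N j ⁻¹' J N l) = lam.real ∅ := by
        refine real_congr (fun t ht => ?_)
        simp only [mem_preimage, mem_empty_iff_false, iff_false]
        intro h3
        have h4 := hmin t ht
        have h5 := h3.2
        linarith
      rw [h2]
      simp
    · have h1 : β ≤ (l : ℝ) / N := by
        rw [le_div_iff₀ hN', mul_comm]
        exact (Nat.ceil_le.1 hl)
      have h2 : lam.real (pf f N j ⁻¹' J N l) ≤ lam.real (pf f N j ⁻¹' {β}) := by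
        have h3 : lam.real (pf f N j ⁻¹' J N l) = lam.real (pf f N j ⁻¹' J N l ∩ pf f N j ⁻¹' {β}) := by
          refine real_congr (fun t ht => ?_)
          constructor
          · intro h4
            refine ⟨h4, ?_⟩
            have h5 := hmax t ht
            have h6 := h4.1
            exact le_antisymm h5 (h1.trans h6)
          · intro h4
            exact h4.1
        rw [h3]
        exact measureReal_mono inter_subset_right
      rw [pf_null hf hj β] at h2
      exact le_antisymm h2 measureReal_nonneg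
  · have h1 := Nat.lt_floor_add_one ((N : ℝ) * α)
    have h2 : ((⌈N * β⌉₊ : ℕ) : ℝ) < N * β + 1 := Nat.ceil_lt_add_one (mul_nonneg hN'.le
      (hα0.trans hαβ.le))
    rw [← sub_div, div_le_iff₀ hN']
    have h3 : (ω + 2 / N) * N = ω * N + 2 := by field_simp
    rw [h3]
    nlinarith

end Pool.Agent.R819.GD
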