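import Pool.Agent.R819.GD.Hfun

/-!
The main step: a modification of a Lebesgue preserving map which follows a permutation of
the cells of a grid with high probability and which is unchanged on `W n`.
-/

namespace Pool.Agent.R819.GD

open MeasureTheory Set Topology Filter

/-- points whose image lies in the prescribed cell -/
def Good (N : ℕ) (π : ℕ → ℕ) (g : ℝ → ℝ) : Set ℝ := {x | ∃ j < N, x ∈ J N j ∧ g x ∈ J N (π j)}

lemma Good_meas (N : ℕ) (π : ℕ → ℕ) {g : ℝ → ℝ} (hg : Measurable g) :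
    MeasurableSet (Good N π g) := by
  have : Good N π g = ⋃ j ∈ Finset.range N, (J N j ∩ g ⁻¹' J N (π j)) := by
    ext x
    simp only [Good, mem_ofPred_eq, mem_iUnion, Finset.mem_range, mem_inter_iff, mem_preimage,
      exists_prop]
  rw [this]
  exact Finset.measurableSet_biUnion _ (fun j _ => (J_meas N j).inter (hg (J_meas N (π j))))

lemma sum_mul_range (N R : ℕ) (φ : ℕ → ℝ) :
    ∑ i ∈ Finset.range (N * R), φ i = ∑ j ∈ Finset.range N, ∑ r ∈ Finset.range R, φ (j * R + r) := by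
  induction N with
  | zero => simp
  | succ N ih =>
    rw [Finset.sum_range_succ, ← ih, Nat.succ_mul, Finset.sum_range_add]

lemma real_inter_Ico {S : Set ℝ} (hS : MeasurableSet S) :
    lam.real (S ∩ Ico 0 1) = lam.real S := by
  rw [real_eq_iff, lam_apply hS, lam_apply (hS.inter measurableSet_Ico)]
  congr 1
  ext x
  simp only [mem_inter_iff]
  tauto

/-- the algebra of the corrected transition matrix -/
lemma matrix_step {N : ℕ} {X Y : ℕ → ℕ → ℝ} {κ δ : ℝ} (hκ0 : 0 < κ) (hκ1 : κ < 1)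
    {π : ℕ → ℕ} (hπlt : ∀ j < N, π j < N)
    (hπsum : ∀ l < N, ∑ j ∈ Finset.range N, (if l = π j then (1 : ℝ) else 0) = 1)
    (hX0 : ∀ j < N, ∀ l < N, 0 ≤ X j l) (hXπ : ∀ j < N, 0 < X j (π j))
    (hXr : ∀ j < N, ∑ l ∈ Finset.range N, X j l = 1)
    (hXc : ∀ l < N, ∑ j ∈ Finset.range N, X j l = 1)
    (hY0 : ∀ j < N, ∀ l < N, 0 ≤ Y j l) (hYX : ∀ j < N, ∀ l < N, Y j l ≤ X j l)
    (hYδ : ∀ j < N, ∀ l < N, Y j l ≤ δ) (hδ : ∀ j < N, ∀ l < N, 0 < X j l → δ < κ * X j l)
    (hYc : ∀ l < N, ∑ j ∈ Finset.range N, Y j l = δ) :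
    ∃ C : ℕ → ℕ → ℝ, (∀ j < N, ∀ l < N, 0 ≤ C j l) ∧
      (∀ j < N, ∀ l < N, 0 < X j l → 0 < C j l) ∧
      (∀ j < N, ∀ l < N, X j l = 0 → C j l = 0) ∧
      (∀ j < N, 1 - κ ≤ C j (π j)) ∧
      (∀ j < N, ∑ l ∈ Finset.range N, C j l = 1 - ∑ l ∈ Finset.range N, Y j l) ∧
      (∀ l < N, ∑ j ∈ Finset.range N, C j l = 1 - δ) := by
  have hpos : ∀ j < N, ∀ l < N, 0 < X j l →
      0 < X j l - Y j l + (1 - κ) * ((if l = π j then (1 : ℝ) else 0) - X j l) := by
    intro j hj l hl h1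
    have h2 := hYδ j hj l hl
    have h3 := hδ j hj l hl h1
    have h4 : (0 : ℝ) ≤ (if l = π j then (1 : ℝ) else 0) := by split_ifs <;> norm_num
    nlinarith
  have hzero : ∀ j < N, ∀ l < N, X j l = 0 →
      X j l - Y j l + (1 - κ) * ((if l = π j then (1 : ℝ) else 0) - X j l) = 0 := by
    intro j hj l hl h1
    have h2 := hYX j hj l hl
    have h3 := hY0 j hj l hl
    have h4 : Y j l = 0 := le_antisymm (h1 ▸ h2) h3
    have h5 : l ≠ π j := by
      intro h
      have := hXπ j hj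
      rw [← h, h1] at this
      exact lt_irrefl _ this
    rw [h1, h4, if_neg h5]
    ring
  refine ⟨fun j l => X j l - Y j l + (1 - κ) * ((if l = π j then (1 : ℝ) else 0) - X j l),
    ?_, hpos, hzero, ?_, ?_, ?_⟩
  · intro j hj l hl
    rcases (hX0 j hj l hl).lt_or_eq with h1 | h1
    · exact (hpos j hj l hl h1).le
    · exact (hzero j hj l hl h1.symm).ge
  · intro j hj
    have h1 := hXπ j hj
    have h2 := hYδ j hj (π j) (hπlt j hj)
    have h3 := hδ j hj (π j) (hπlt j hj) h1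
    simp only [if_true]
    nlinarith
  · intro j hj
    rw [Finset.sum_add_distrib, Finset.sum_sub_distrib, ← Finset.mul_sum, Finset.sum_sub_distrib,
      hXr j hj]
    have : ∑ l ∈ Finset.range N, (if l = π j then (1 : ℝ) else 0) = 1 := by
      rw [Finset.sum_ite_eq' (Finset.range N) (π j) (fun _ => (1 : ℝ)),
        if_pos (Finset.mem_range.2 (hπlt j hj))]
    rw [this]
    ring
  · intro l hl
    rw [Finset.sum_add_distrib, Finset.sum_sub_distrib, ← Finset.mul_sum, Finset.sum_sub_distrib,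
      hXc l hl, hYc l hl, hπsum l hl]
    ring

end Pool.Agent.R819.GD
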