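import Pool.Agent.R819.GD.Core

/-!
The main step, continued: glueing the corrected profiles.
-/

namespace Pool.Agent.R819.GD

open MeasureTheory Set Topology Filter

lemma sum_idx_ite {n M : ℕ} (hM : M = 8 ^ n) (φ ψ : ℕ → ℝ) :
    ∑ i ∈ Finset.range M, (if i ∈ idx n then φ i else ψ i) =
      ∑ i ∈ idx n, φ i + ∑ i ∈ Finset.range M, (if i ∈ idx n then 0 else ψ i) := by
  have h1 : ∑ i ∈ idx n, φ i = ∑ i ∈ Finset.range M, (if i ∈ idx n then φ i else 0) := by
    rw [Finset.sum_ite_mem]
    congr 1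
    rw [Finset.inter_eq_right.2]
    intro i hi
    rw [Finset.mem_range, hM]
    exact idx_lt n i hi
  rw [h1, ← Finset.sum_add_distrib]
  refine Finset.sum_congr rfl (fun i _ => ?_)
  split_ifs <;> ring

theorem step_core {f : ℝ → ℝ} (hf : CL f) {n₀ : ℕ} (hfF : ∀ x ∈ W n₀, f x = F x) (q : ℕ)
    {κ ω : ℝ} (hκ0 : 0 < κ) (hκ1 : κ < 1)
    (hω : ∀ x ∈ Icc (0 : ℝ) 1, ∀ y ∈ Icc (0 : ℝ) 1, |x - y| ≤ 1 / ((8 ^ q : ℕ) : ℝ) →
      |f x - f y| ≤ ω)
    {π : ℕ → ℕ} (hπlt : ∀ j < 8 ^ q, π j < 8 ^ q)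
    (hπsum : ∀ l < 8 ^ q, ∑ j ∈ Finset.range (8 ^ q), (if l = π j then (1 : ℝ) else 0) = 1)
    (hXπ : ∀ j < 8 ^ q, 0 < lam.real (pf f (8 ^ q) j ⁻¹' J (8 ^ q) (π j))) :
    ∃ n ≥ n₀, ∃ g : ℝ → ℝ, CL g ∧ (∀ x ∈ W n, g x = F x) ∧
      (∀ x ∈ Icc (0 : ℝ) 1, |g x - f x| ≤ ω + 2 / ((8 ^ q : ℕ) : ℝ)) ∧
      1 - κ ≤ lam.real (Good (8 ^ q) π g) := by
  set N : ℕ := 8 ^ q with hNdef
  have hN : 0 < N := by positivity
  have hN' : (0 : ℝ) < N := by exact_mod_cast hN
  set X : ℕ → ℕ → ℝ := fun j l => lam.real (pf f N j ⁻¹' J N l) with hX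
  -- choice of n
  have hn : ∀ᶠ n : ℕ in atTop, n₀ ≤ n ∧ q ≤ n ∧
      ∀ p ∈ Finset.range N ×ˢ Finset.range N, 0 < X p.1 p.2 → ((1 : ℝ) / 2) ^ n < κ * X p.1 p.2 := by
    refine (eventually_ge_atTop n₀).and ((eventually_ge_atTop q).and ?_)
    rw [Finset.eventually_all]
    intro p _
    by_cases h0 : 0 < X p.1 p.2
    · have h1 := tendsto_pow_atTop_nhds_zero_of_lt_one (r := (1 / 2 : ℝ)) (by norm_num)
        (by norm_num)
      filter_upwards [h1.eventually (gt_mem_nhds (mul_pos hκ0 h0))] with n hn _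
      exact hn
    · exact Eventually.of_forall (fun n h => absurd h h0)
  obtain ⟨n, hnn₀, hqn, hδ'⟩ := hn.exists
  have hδ : ∀ j < N, ∀ l < N, 0 < X j l → ((1 : ℝ) / 2) ^ n < κ * X j l := by
    intro j hj l hl h0
    exact hδ' (j, l) (Finset.mem_product.2 ⟨Finset.mem_range.2 hj, Finset.mem_range.2 hl⟩) h0
  set R : ℕ := 8 ^ (n - q) with hRdef
  have hR : 0 < R := by positivity
  have hR' : (0 : ℝ) < R := by exact_mod_cast hR
  have hNR : N * R = 8 ^ n := by
    rw [hNdef, hRdef, ← pow_add]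
    congr 1
    omega
  set M : ℕ := N * R with hMdef
  have hM : 0 < M := Nat.mul_pos hN hR
  have hM' : (0 : ℝ) < M := by exact_mod_cast hM
  have hMcast : (M : ℝ) = 8 ^ n := by rw [hNR]; push_cast; rfl
  have hMNR : (M : ℝ) = N * R := by rw [hMdef]; push_cast; rfl
  have hidxlt : ∀ i ∈ idx n, i < M := by
    intro i hi
    rw [hNR]
    exact idx_lt n i hi
  have h48 : (4 : ℝ) ^ n = (1 / 2) ^ n * M := by
    rw [hMcast, ← mul_pow]
    norm_num
  -- cell values
  set x : ℕ → ℕ → ℝ := fun i l => lam.real (pf f M i ⁻¹' J N l) with hx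
  have hx0 : ∀ i l, 0 ≤ x i l := fun i l => measureReal_nonneg
  have hpfmaps : ∀ (K i : ℕ) (t : ℝ), pf f K i t ∈ Icc (0 : ℝ) 1 := fun K i t => hf.maps _
  have hxr : ∀ i < M, ∑ l ∈ Finset.range N, x i l = 1 := by
    intro i hi
    exact sum_J hN (pf_cont hf.cont M i).measurable (fun t _ => hpfmaps M i t) (pf_null hf hi 1)
  have hXr : ∀ j < N, ∑ l ∈ Finset.range N, X j l = 1 := by
    intro j hj
    exact sum_J hN (pf_cont hf.cont N j).measurable (fun t _ => hpfmaps N j t) (pf_null hf hj 1)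
  have hXc : ∀ l < N, ∑ j ∈ Finset.range N, X j l = 1 := by
    intro l hl
    rw [sum_pf hf hN (J_meas N l), lam_J hl]
    field_simp
  have hXx : ∀ j l, X j l = (1 / R) * ∑ r ∈ Finset.range R, x (j * R + r) l := fun j l =>
    sub_pf hN hR hf.cont j (J_meas N l)
  -- profile of f on the cells of W n is the one of F
  have hcellF : ∀ i ∈ idx n, ∀ t ∈ Icc (0 : ℝ) 1, pf f M i t = F ((i + t) / 8 ^ n) := by
    intro i hi t ht
    unfold pf
    rw [hMcast]
    apply hfF
    apply W_anti hnn₀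
    rw [mem_W_iff]
    refine ⟨i, hi, ?_, ?_⟩
    · have : (8 : ℝ) ^ n * ((i + t) / 8 ^ n) = i + t := by field_simp
      rw [this]
      linarith [ht.1]
    · have : (8 : ℝ) ^ n * ((i + t) / 8 ^ n) = i + t := by field_simp
      rw [this]
      linarith [ht.2]
  have hA1 : ∀ {A : Set ℝ}, MeasurableSet A →
      ∑ i ∈ idx n, lam.real (pf f M i ⁻¹' A) = 4 ^ n * lam.real A := by
    intro A hA
    rw [← A1 n hA]
    refine Finset.sum_congr rfl (fun i hi => real_congr (fun t ht => ?_))
    rw [mem_preimage, mem_preimage, hcellF i hi t ht]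
  set Y : ℕ → ℕ → ℝ := fun j l =>
    (1 / R) * ∑ r ∈ Finset.range R, (if j * R + r ∈ idx n then x (j * R + r) l else 0) with hY
  have hY0 : ∀ j < N, ∀ l < N, 0 ≤ Y j l := by
    intro j _ l _
    refine mul_nonneg (by positivity) (Finset.sum_nonneg (fun r _ => ?_))
    split_ifs
    · exact hx0 _ _
    · exact le_rfl
  have hYX : ∀ j < N, ∀ l < N, Y j l ≤ X j l := by
    intro j _ l _
    rw [hXx j l]
    refine mul_le_mul_of_nonneg_left (Finset.sum_le_sum (fun r _ => ?_)) (by positivity)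
    split_ifs
    · exact le_rfl
    · exact hx0 _ _
  have hYc : ∀ l < N, ∑ j ∈ Finset.range N, Y j l = (1 / 2) ^ n := by
    intro l hl
    have h1 : ∑ i ∈ Finset.range M, (if i ∈ idx n then x i l else 0) = 4 ^ n * (1 / N) := by
      rw [sum_idx_ite hNR (fun i => x i l) (fun _ => 0)]
      simp only [ite_self, Finset.sum_const_zero, add_zero]
      rw [← lam_J hl]
      exact hA1 (J_meas N l)
    rw [hMdef, sum_mul_range] at h1
    simp only [hY]
    rw [← Finset.mul_sum, h1, h48, hMNR]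
    field_simp
  have hYδ : ∀ j < N, ∀ l < N, Y j l ≤ (1 / 2) ^ n := by
    intro j hj l hl
    rw [← hYc l hl]
    exact Finset.single_le_sum (f := fun j => Y j l)
      (fun j hj => hY0 j (Finset.mem_range.1 hj) l hl) (Finset.mem_range.2 hj)
  obtain ⟨C, hC0, hCpos, hCzero, hCπ, hCr, hCc⟩ := matrix_step (X := X) (Y := Y)
    (δ := (1 / 2) ^ n) hκ0 hκ1 hπlt hπsum
    (fun j _ l _ => measureReal_nonneg) hXπ hXr hXc hY0 hYX hYδ hδ hYc
  -- row sums
  set c : ℕ → ℝ := fun j => ∑ r ∈ Finset.range R, (if j * R + r ∈ idx n then (0 : ℝ) else 1) with hc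
  have hYr : ∀ j < N, ∑ l ∈ Finset.range N, Y j l =
      (1 / R) * ∑ r ∈ Finset.range R, (if j * R + r ∈ idx n then (1 : ℝ) else 0) := by
    intro j hj
    simp only [hY]
    rw [← Finset.mul_sum, Finset.sum_comm]
    congr 1
    refine Finset.sum_congr rfl (fun r hr => ?_)
    split_ifs with h
    · exact hxr _ (hidxlt _ h)
    · simp
  have hcC : ∀ j < N, ∑ l ∈ Finset.range N, C j l = c j / R := by
    intro j hj
    rw [hCr j hj, hYr j hj]
    have h1 : c j + ∑ r ∈ Finset.range R, (if j * R + r ∈ idx n then (1 : ℝ) else 0) = R := by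
      simp only [hc]
      rw [← Finset.sum_add_distrib]
      have : ∀ r ∈ Finset.range R, ((if j * R + r ∈ idx n then (0 : ℝ) else 1) +
          (if j * R + r ∈ idx n then (1 : ℝ) else 0)) = 1 := by
        intro r _
        split_ifs <;> norm_num
      rw [Finset.sum_congr rfl this]
      simp
    rw [← h1] at hR' ⊢
    field_simp
    ring
  have hρpos : ∀ j < N, 0 < c j / R := by
    intro j hj
    rw [← hcC j hj]
    have h1 := hCπ j hj
    have h2 : C j (π j) ≤ ∑ l ∈ Finset.range N, C j l :=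
      Finset.single_le_sum (f := fun l => C j l)
        (fun l hl => hC0 j hj l (Finset.mem_range.1 hl)) (Finset.mem_range.2 (hπlt j hj))
    linarith
  have hcpos : ∀ j < N, 0 < c j := by
    intro j hj
    have := hρpos j hj
    exact (div_pos_iff_of_pos_right hR').1 this
  set w : ℕ → ℕ → ℝ := fun j l => C j l / (c j / R) with hw
  have hwsum : ∀ j < N, ∑ l ∈ Finset.range N, w j l = 1 := by
    intro j hj
    simp only [hw]
    rw [← Finset.sum_div, hcC j hj, div_self (hρpos j hj).ne']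
  -- hulls
  have hhull : ∀ j, ∃ lo hi : ℕ, j < N → (lo < hi ∧ hi ≤ N ∧
      (∀ t ∈ Icc (0 : ℝ) 1, pf f N j t ∈ Icc ((lo : ℝ) / N) ((hi : ℝ) / N)) ∧
      (∀ l, lo ≤ l → l < hi → 0 < lam.real (pf f N j ⁻¹' J N l)) ∧
      (∀ l, (l < lo ∨ hi ≤ l) → lam.real (pf f N j ⁻¹' J N l) = 0) ∧
      (hi : ℝ) / N - lo / N ≤ ω + 2 / N) := by
    intro j
    by_cases hj : j < N
    · obtain ⟨lo, hi, h⟩ := hull hf hj hω
      exact ⟨lo, hi, fun _ => h⟩
    · exact ⟨0, 0, fun h => absurd h hj⟩
  choose lo hi hhull using hhull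
  have hdivlt : ∀ i < M, i / R < N := by
    intro i hi'
    rw [Nat.div_lt_iff_lt_mul hR]
    exact hi'
  have hcellpf : ∀ i < M, ∀ t ∈ Icc (0 : ℝ) 1, f ((i + t) / M) ∈
      Icc ((lo (i / R) : ℝ) / N) ((hi (i / R) : ℝ) / N) := by
    intro i hiM t ht
    have h1 := (hhull (i / R) (hdivlt i hiM)).2.2.1 (((i % R : ℕ) + t) / R) (by
      constructor
      · have := ht.1
        positivity
      · rw [div_le_one hR']
        have h2 : ((i % R : ℕ) : ℝ) + 1 ≤ R := by exact_mod_cast Nat.mod_lt i hR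
        linarith [ht.2])
    unfold pf at h1
    have h2 : (((i / R : ℕ) : ℝ) + ((i % R : ℕ) + t) / R) / N = (i + t) / M := by
      have h3 : (i : ℝ) = (i / R : ℕ) * R + (i % R : ℕ) := by
        have := Nat.div_add_mod' i R
        exact_mod_cast this.symm
      rw [hMNR]
      rw [div_eq_div_iff (by positivity) (by positivity)]
      have h4 : ((i / R : ℕ) : ℝ) + ((i % R : ℕ) + t) / R = ((i : ℝ) + t) / R := by
        rw [h3]
        field_simp
        push_cast
        have e1 : (((i / R : ℕ) : ℝ) * R + (i % R : ℕ)) = i := h3.symm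
        ring
      rw [h4]
      field_simp
    rw [h2] at h1
    exact h1
  -- the new profiles
  have hG : ∀ i, ∃ G : ℝ → ℝ, i < M → (Continuous G ∧
      (∀ t, G t ∈ Icc ((lo (i / R) : ℝ) / N) (hi (i / R) / N)) ∧ G 0 = f (i / M) ∧
      G 1 = f ((i + 1) / M) ∧
      (∀ y, lam.real (G ⁻¹' Ici y) = 1 - HH N (w (i / R)) y) ∧
      (∀ l < N, lam.real (G ⁻¹' J N l) = w (i / R) l)) := by
    intro i
    by_cases hiM : i < M
    · have hj := hdivlt i hiM
      obtain ⟨h1, h2, h3, h4, h5, h6⟩ := hhull (i / R) hj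
      have hp := hcellpf i hiM 0 ⟨le_rfl, zero_le_one⟩
      have hq := hcellpf i hiM 1 ⟨zero_le_one, le_rfl⟩
      rw [add_zero] at hp
      obtain ⟨G, hG⟩ := exists_profile hN (w := w (i / R)) (lo := lo (i / R)) (hi := hi (i / R))
        (fun l hl => div_nonneg (hC0 _ hj l hl) (hρpos _ hj).le) h1 h2
        (fun l hl1 hl2 => div_pos (hCpos _ hj l (hl2.trans_le h2) (h4 l hl1 hl2)) (hρpos _ hj))
        (fun l hl hl' => by
          simp only [hw]
          rw [hCzero _ hj l hl (h5 l hl'), zero_div])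
        (hwsum _ hj) hp hq
      exact ⟨G, fun _ => hG⟩
    · exact ⟨0, fun h => absurd h hiM⟩
  choose G hG using hG
  set h : ℕ → ℝ → ℝ := fun i => if i ∈ idx n then pf f M i else G i with hh
  have hin : ∀ i ∈ idx n, h i = pf f M i := fun i hi' => by simp only [hh]; rw [if_pos hi']
  have hout : ∀ i ∉ idx n, h i = G i := fun i hi' => by simp only [hh]; rw [if_neg hi']
  have hh0 : ∀ i < M, h i 0 = f (i / M) := by
    intro i hiM
    by_cases h1 : i ∈ idx n
    · rw [hin i h1]; unfold pf; rw [add_zero]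
    · rw [hout i h1]; exact (hG i hiM).2.2.1
  have hh1 : ∀ i < M, h i 1 = f ((i + 1) / M) := by
    intro i hiM
    by_cases h1 : i ∈ idx n
    · rw [hin i h1]; unfold pf; rfl
    · rw [hout i h1]; exact (hG i hiM).2.2.2.1
  have hhc : ∀ i < M, Continuous (h i) := by
    intro i hiM
    by_cases h1 : i ∈ idx n
    · rw [hin i h1]; exact pf_cont hf.cont M i
    · rw [hout i h1]; exact (hG i hiM).1
  have hmatch : ∀ i, i + 1 < M → h i 1 = h (i + 1) 0 := by
    intro i hi'
    rw [hh1 i (by omega), hh0 (i + 1) hi']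
    push_cast
    rfl
  have hcont : Continuous (glue M h) := glue_continuous hM hhc hmatch
  have hmaps : ∀ x, glue M h x ∈ Icc (0 : ℝ) 1 := by
    refine glue_mem hM hmatch (fun i hiM t ht => ?_)
    by_cases h1 : i ∈ idx n
    · rw [hin i h1]; exact hpfmaps M i t
    · rw [hout i h1]
      have h2 := (hG i hiM).2.1 t
      have h3 := (hhull (i / R) (hdivlt i hiM)).2.1
      refine ⟨le_trans (by positivity) h2.1, h2.2.trans ?_⟩
      rw [div_le_one hN']
      exact_mod_cast h3
  -- double sums over the free cells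
  have hfree : ∀ ψ : ℕ → ℝ, ∑ i ∈ Finset.range M, (if i ∈ idx n then 0 else ψ (i / R)) =
      ∑ j ∈ Finset.range N, c j * ψ j := by
    intro ψ
    rw [hMdef, sum_mul_range]
    refine Finset.sum_congr rfl (fun j hj => ?_)
    simp only [hc]
    rw [Finset.sum_mul]
    refine Finset.sum_congr rfl (fun r hr => ?_)
    have e : (j * R + r) / R = j := by
      rw [mul_comm, Nat.mul_add_div hR, Nat.div_eq_of_lt (Finset.mem_range.1 hr), add_zero]
    rw [e]
    split_ifs <;> ring
  have hpres : ∀ A, MeasurableSet A → lam (glue M h ⁻¹' A) = lam A := by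
    refine pres_of_Ici hcont.measurable hmaps (fun y hy => ?_)
    have h1 : lam.real (glue M h ⁻¹' Ici y) = 1 - y := by
      rw [glue_real hM (fun i hiM => (hhc i hiM).measurable) hcont.measurable measurableSet_Ici]
      have h2 : ∀ i ∈ Finset.range M, lam.real (h i ⁻¹' Ici y) =
          (if i ∈ idx n then lam.real (pf f M i ⁻¹' Ici y) else 1 - HH N (w (i / R)) y) := by
        intro i hi'
        split_ifs with h3
        · rw [hin i h3]
        · rw [hout i h3]
          exact (hG i (Finset.mem_range.1 hi')).2.2.2.2.1 y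
      rw [Finset.sum_congr rfl h2, sum_idx_ite hNR, hA1 measurableSet_Ici,
        hfree (fun j => 1 - HH N (w j) y)]
      have h3 : lam.real (Ici y) = 1 - y := by
        unfold Measure.real
        rw [lam_Ici ⟨hy.1.le, hy.2⟩, ENNReal.toReal_ofReal (by linarith [hy.2])]
      have h4 : ∀ j ∈ Finset.range N, c j * (1 - HH N (w j) y) =
          R * (∑ l ∈ Finset.range N, C j l - ∑ l ∈ Finset.range N, C j l * cl (N * y - l)) := by
        intro j hj
        have hj' := Finset.mem_range.1 hj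
        have h5 : c j * HH N (w j) y = R * ∑ l ∈ Finset.range N, C j l * cl (N * y - l) := by
          unfold HH
          rw [Finset.mul_sum, Finset.mul_sum]
          refine Finset.sum_congr rfl (fun l _ => ?_)
          simp only [hw]
          have := (hcpos j hj').ne'
          field_simp
        rw [hcC j hj', mul_sub, mul_sub, h5]
        field_simp
      rw [Finset.sum_congr rfl h4, ← Finset.mul_sum, Finset.sum_sub_distrib]
      have h5 : ∑ j ∈ Finset.range N, ∑ l ∈ Finset.range N, C j l = N * (1 - (1 / 2) ^ n) := by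
        rw [Finset.sum_comm, Finset.sum_congr rfl (fun l hl => hCc l (Finset.mem_range.1 hl)),
          Finset.sum_const, Finset.card_range, nsmul_eq_mul]
      have h6 : ∑ j ∈ Finset.range N, ∑ l ∈ Finset.range N, C j l * cl (N * y - l) =
          (1 - (1 / 2) ^ n) * (N * y) := by
        rw [Finset.sum_comm]
        have h7 : ∀ l ∈ Finset.range N, ∑ j ∈ Finset.range N, C j l * cl (N * y - l) =
            (1 - (1 / 2) ^ n) * cl (N * y - l) := by
          intro l hl
          rw [← Finset.sum_mul, hCc l (Finset.mem_range.1 hl)]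
        rw [Finset.sum_congr rfl h7, ← Finset.mul_sum, sum_cl N (N * y)
          (mul_nonneg hN'.le hy.1.le) (by nlinarith [hy.2])]
      rw [h3, h5, h6, h48, hMNR]
      field_simp
      ring
    rw [← h1]
    exact (ofReal_measureReal (measure_ne_top _ _)).symm
  have hcellx : ∀ i < M, ∀ z ∈ Icc ((i : ℝ) / M) ((i + 1) / M), (M : ℝ) * z - i ∈ Icc (0 : ℝ) 1 := by
    intro i _ z hz
    have h1 := hz.1
    have h2 := hz.2
    rw [div_le_iff₀ hM'] at h1
    rw [le_div_iff₀ hM'] at h2
    constructor <;> linarith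
  have hpfz : ∀ (i : ℕ) (z : ℝ), pf f M i ((M : ℝ) * z - i) = f z := by
    intro i z
    unfold pf
    congr 1
    field_simp
    ring
  refine ⟨n, hnn₀, glue M h, ⟨hcont, hmaps, fun z => glue_cl z, hpres⟩, ?_, ?_, ?_⟩
  · intro z hz
    obtain ⟨i, hi', h1, h2⟩ := (mem_W_iff n z).1 hz
    have hz' : z ∈ Icc ((i : ℝ) / M) ((i + 1) / M) := by
      rw [hMcast]
      constructor
      · rw [div_le_iff₀ (by positivity)]; linarith
      · rw [le_div_iff₀ (by positivity)]; linarith
    rw [glue_Icc hmatch (hidxlt i hi') hz', hin i hi', hpfz]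
    exact hfF z (W_anti hnn₀ hz)
  · intro z hz
    obtain ⟨i, hiM, hz'⟩ := exists_cell hM hz
    rw [glue_Icc hmatch hiM hz']
    by_cases h1 : i ∈ idx n
    · rw [hin i h1, hpfz, sub_self, abs_zero]
      have := hω 0 ⟨le_rfl, zero_le_one⟩ 0 ⟨le_rfl, zero_le_one⟩ (by simp)
      simp at this
      positivity
    · rw [hout i h1]
      have h2 := (hG i hiM).2.1 (M * z - i)
      have h3 := hcellpf i hiM _ (hcellx i hiM z hz')
      have h4 : ((i : ℝ) + (M * z - i)) / M = z := by field_simp; ring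
      rw [h4] at h3
      have h5 := (hhull (i / R) (hdivlt i hiM)).2.2.2.2.2
      rw [abs_le]
      constructor <;> linarith [h2.1, h2.2, h3.1, h3.2]
  · rw [lam_cells hM (Good_meas N π hcont.measurable)]
    have h1 : ∀ i ∈ Finset.range M, (if i ∈ idx n then 0 else w (i / R) (π (i / R))) ≤
        lam.real ((fun t : ℝ => (i + t) / M) ⁻¹' Good N π (glue M h)) := by
      intro i hi'
      have hiM := Finset.mem_range.1 hi'
      split_ifs with h2
      · exact measureReal_nonneg
      · rw [← (hG i hiM).2.2.2.2.2 _ (hπlt _ (hdivlt i hiM)),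
          ← real_inter_Ico ((hG i hiM).1.measurable (J_meas N _))]
        refine measureReal_mono ?_
        rintro t ⟨ht1, ht2⟩
        have hi1 : (i : ℝ) / M ≤ (i + t) / M :=
          div_le_div_of_nonneg_right (by linarith [ht2.1]) hM'.le
        have hi2 : ((i : ℝ) + t) / M < (i + 1) / M :=
          div_lt_div_of_pos_right (by linarith [ht2.2]) hM'
        refine ⟨i / R, hdivlt i hiM, ⟨?_, ?_⟩, ?_⟩
        · refine le_trans ?_ hi1
          rw [hMNR, div_le_div_iff₀ hN' (by positivity)]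
          have h3 : ((i / R : ℕ) : ℝ) * R ≤ i := by exact_mod_cast Nat.div_mul_le_self i R
          nlinarith
        · refine lt_of_lt_of_le hi2 ?_
          rw [hMNR, div_le_div_iff₀ (by positivity) hN']
          have h3 : ((i : ℝ) + 1) ≤ ((i / R : ℕ) + 1) * R := by
            have : i + 1 ≤ (i / R + 1) * R := Nat.lt_mul_of_div_lt (Nat.lt_succ_self _) hR
            exact_mod_cast this
          nlinarith
        · rw [glue_Ico hiM ⟨hi1, hi2⟩, hout i h2]
          have h4 : (M : ℝ) * ((i + t) / M) - i = t := by field_simp; ring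
          rw [h4]
          exact ht1
    have h2 := Finset.sum_le_sum h1
    rw [hfree (fun j => w j (π j))] at h2
    have h3 : ∑ j ∈ Finset.range N, c j * w j (π j) = R * ∑ j ∈ Finset.range N, C j (π j) := by
      rw [Finset.mul_sum]
      refine Finset.sum_congr rfl (fun j hj => ?_)
      have := (hcpos j (Finset.mem_range.1 hj)).ne'
      simp only [hw]
      field_simp
    have h4 : (N : ℝ) * (1 - κ) ≤ ∑ j ∈ Finset.range N, C j (π j) := by
      have h5 := Finset.sum_le_sum (fun j (hj : j ∈ Finset.range N) =>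
        hCπ j (Finset.mem_range.1 hj))
      rw [Finset.sum_const, Finset.card_range, nsmul_eq_mul] at h5
      exact h5
    rw [h3] at h2
    have h5 : (R : ℝ) * (N * (1 - κ)) ≤ ∑ i ∈ Finset.range M,
        lam.real ((fun t : ℝ => (i + t) / M) ⁻¹' Good N π (glue M h)) :=
      (mul_le_mul_of_nonneg_left h4 hR'.le).trans h2
    have h6 : 1 - κ = (1 / M) * (R * (N * (1 - κ))) := by
      rw [hMNR]
      field_simp
    rw [h6]
    exact mul_le_mul_of_nonneg_left h5 (by positivity)

end Pool.Agent.R819.GD
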