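import Pool.Agent.R819.GD.Self

/-!
The lower bound for the Hausdorff dimension of the graph.
-/

namespace Pool.Agent.R819.GD

open MeasureTheory Set Topology Filter Real
open scoped ENNReal NNReal

/-- the digits in base eight -/
def dg (u v : ℕ → Fin 2) (i : ℕ) : Fin 8 :=
  ⟨2 * (2 * (u i : ℕ) + (v i : ℕ)) + 1, by have := (u i).2; have := (v i).2; omega⟩

/-- the coded point -/
noncomputable def XX (u v : ℕ → Fin 2) : ℝ := ofDigits (dg u v)

/-- the shift -/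
def sh (u : ℕ → Fin 2) : ℕ → Fin 2 := fun i => u (i + 1)

lemma ofDigits_rec (u : ℕ → Fin 2) : ofDigits u = ((u 0 : ℕ) + ofDigits (sh u)) / 2 := by
  rw [ofDigits_eq_sum_add_ofDigits u 1]
  have h1 : (fun i => u (i + 1)) = sh u := rfl
  rw [h1]
  simp only [Finset.sum_range_one, ofDigitsTerm, zero_add, pow_one]
  push_cast
  ring

lemma XX_rec (u v : ℕ → Fin 2) :
    XX u v = (2 * ((2 * (u 0 : ℕ) + (v 0 : ℕ) : ℕ) : ℝ) + 1 + XX (sh u) (sh v)) / 8 := by
  unfold XX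
  rw [ofDigits_eq_sum_add_ofDigits (dg u v) 1]
  have h1 : (fun i => dg u v (i + 1)) = dg (sh u) (sh v) := rfl
  rw [h1]
  simp only [Finset.sum_range_one, ofDigitsTerm, zero_add, pow_one, dg]
  push_cast
  ring

lemma XX_mem (u v : ℕ → Fin 2) : XX u v ∈ Icc (0 : ℝ) 1 := ⟨ofDigits_nonneg _, ofDigits_le_one _⟩

lemma XX_ge (u v : ℕ → Fin 2) : 1 / 8 ≤ XX u v := by
  rw [XX_rec]
  have h1 := (XX_mem (sh u) (sh v)).1
  have h2 : (0 : ℝ) ≤ ((2 * (u 0 : ℕ) + (v 0 : ℕ) : ℕ) : ℝ) := Nat.cast_nonneg _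
  linarith

lemma code_lt (u v : ℕ → Fin 2) : 2 * (u 0 : ℕ) + (v 0 : ℕ) < 4 := by
  have := (u 0).2; have := (v 0).2; omega

lemma F_XX_aux (n : ℕ) : ∀ u v : ℕ → Fin 2, |F (XX u v) - ofDigits v| ≤ (1 / 2) ^ n := by
  induction n with
  | zero =>
    intro u v
    have h1 := F_adm.cl.maps (XX u v)
    have h2 := ofDigits_nonneg v
    have h3 := ofDigits_le_one v
    rw [pow_zero, abs_le]
    constructor <;> linarith [h1.1, h1.2]
  | succ n ih =>
    intro u v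
    rw [XX_rec, F_self _ (code_lt u v) _ (XX_mem _ _), ofDigits_rec v]
    have h1 : (2 * (u 0 : ℕ) + (v 0 : ℕ)) % 2 = (v 0 : ℕ) := by have := (v 0).2; omega
    rw [h1]
    have h2 : (((v 0 : ℕ) : ℝ) + F (XX (sh u) (sh v))) / 2 - (((v 0 : ℕ) : ℝ) + ofDigits (sh v)) / 2 =
      (F (XX (sh u) (sh v)) - ofDigits (sh v)) / 2 := by ring
    rw [h2, abs_div, abs_of_pos (by norm_num : (0 : ℝ) < 2), pow_succ]
    have := ih (sh u) (sh v)
    linarith

lemma F_XX (u v : ℕ → Fin 2) : F (XX u v) = ofDigits v := by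
  have h1 := tendsto_pow_atTop_nhds_zero_of_lt_one (r := (1 / 2 : ℝ)) (by norm_num)
    (by norm_num)
  have h2 : |F (XX u v) - ofDigits v| ≤ 0 :=
    ge_of_tendsto' h1 (fun n => F_XX_aux n u v)
  have h3 := abs_nonpos_iff.1 h2
  linarith

lemma XX_mem_W (n : ℕ) : ∀ u v : ℕ → Fin 2, XX u v ∈ W n := by
  induction n with
  | zero => exact fun u v => XX_mem u v
  | succ n ih =>
    intro u v
    refine ⟨2 * (u 0 : ℕ) + (v 0 : ℕ), code_lt u v, ?_⟩
    have h1 : 8 * XX u v - (2 * ((2 * (u 0 : ℕ) + (v 0 : ℕ) : ℕ) : ℝ) + 1) = XX (sh u) (sh v) := by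
      rw [XX_rec u v]
      ring
    rw [h1]
    exact ih _ _

lemma holder_aux (n : ℕ) : ∀ u v u' v' : ℕ → Fin 2, |XX u v - XX u' v'| ≤ (1 / 8) ^ n →
    |ofDigits u - ofDigits u'| ≤ (1 / 2) ^ n := by
  induction n with
  | zero =>
    intro u v u' v' _
    have h1 := ofDigits_nonneg u
    have h2 := ofDigits_le_one u
    have h3 := ofDigits_nonneg u'
    have h4 := ofDigits_le_one u'
    rw [pow_zero, abs_le]
    constructor <;> linarith
  | succ n ih =>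
    intro u v u' v' h
    have hsmall : ((1 : ℝ) / 8) ^ (n + 1) ≤ 1 / 8 := by
      rw [pow_succ]
      have : ((1 : ℝ) / 8) ^ n ≤ 1 := pow_le_one₀ (by norm_num) (by norm_num)
      linarith
    have e1 := XX_rec u v
    have e2 := XX_rec u' v'
    have b1 := XX_ge (sh u) (sh v)
    have b2 := (XX_mem (sh u) (sh v)).2
    have b3 := XX_ge (sh u') (sh v')
    have b4 := (XX_mem (sh u') (sh v')).2
    have h1 := abs_le.1 (h.trans hsmall)
    have hcode : 2 * (u 0 : ℕ) + (v 0 : ℕ) = 2 * (u' 0 : ℕ) + (v' 0 : ℕ) := by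
      by_contra hne
      rcases Nat.lt_or_gt_of_ne hne with h2 | h2
      · have h3 : ((2 * (u 0 : ℕ) + (v 0 : ℕ) : ℕ) : ℝ) + 1 ≤
            ((2 * (u' 0 : ℕ) + (v' 0 : ℕ) : ℕ) : ℝ) := by exact_mod_cast h2
        linarith [h1.1, h1.2]
      · have h3 : ((2 * (u' 0 : ℕ) + (v' 0 : ℕ) : ℕ) : ℝ) + 1 ≤
            ((2 * (u 0 : ℕ) + (v 0 : ℕ) : ℕ) : ℝ) := by exact_mod_cast h2
        linarith [h1.1, h1.2]
    have hu : (u 0 : ℕ) = (u' 0 : ℕ) := by
      have := (v 0).2; have := (v' 0).2; omega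
    have h4 : XX u v - XX u' v' = (XX (sh u) (sh v) - XX (sh u') (sh v')) / 8 := by
      rw [e1, e2, hcode]
      ring
    rw [h4, abs_div, abs_of_pos (by norm_num : (0 : ℝ) < 8), pow_succ] at h
    have h5 := ih (sh u) (sh v) (sh u') (sh v') (by linarith)
    rw [ofDigits_rec u, ofDigits_rec u', hu]
    have h6 : (((u' 0 : ℕ) : ℝ) + ofDigits (sh u)) / 2 - (((u' 0 : ℕ) : ℝ) + ofDigits (sh u')) / 2 =
      (ofDigits (sh u) - ofDigits (sh u')) / 2 := by ring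
    rw [h6, abs_div, abs_of_pos (by norm_num : (0 : ℝ) < 2), pow_succ]
    linarith

lemma holder (u v u' v' : ℕ → Fin 2) :
    |ofDigits u - ofDigits u'| ≤ 2 * |XX u v - XX u' v'| ^ (1 / 3 : ℝ) := by
  rcases (abs_nonneg (XX u v - XX u' v')).eq_or_lt with h0 | h0
  · rw [← h0]
    have h1 := tendsto_pow_atTop_nhds_zero_of_lt_one (r := (1 / 2 : ℝ)) (by norm_num)
      (by norm_num)
    have h2 : |ofDigits u - ofDigits u'| ≤ 0 :=
      ge_of_tendsto' h1 (fun n => holder_aux n u v u' v' (by rw [← h0]; positivity))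
    rw [Real.zero_rpow (by norm_num), mul_zero]
    exact h2
  · have h1 : |XX u v - XX u' v'| ≤ 1 := by
      have a1 := XX_mem u v
      have a2 := XX_mem u' v'
      rw [abs_le]
      constructor <;> linarith [a1.1, a1.2, a2.1, a2.2]
    obtain ⟨n, hn1, hn2⟩ := exists_nat_pow_near_of_lt_one h0 h1 (by norm_num : (0 : ℝ) < 1 / 8)
      (by norm_num)
    have h2 := holder_aux n u v u' v' hn2
    refine h2.trans ?_
    have h3 : (((1 : ℝ) / 8) ^ (n + 1)) ^ (1 / 3 : ℝ) = (1 / 2) ^ (n + 1) := by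
      have : ((1 : ℝ) / 8) = (1 / 2) ^ (3 : ℝ) := by norm_num
      rw [this, ← Real.rpow_natCast, ← Real.rpow_natCast, ← Real.rpow_mul (by norm_num),
        ← Real.rpow_mul (by norm_num)]
      congr 1
      ring
    have h4 : (((1 : ℝ) / 8) ^ (n + 1)) ^ (1 / 3 : ℝ) ≤ |XX u v - XX u' v'| ^ (1 / 3 : ℝ) :=
      Real.rpow_le_rpow (by positivity) hn1.le (by norm_num)
    rw [h3, pow_succ] at h4
    linarith

/-- the coded part of the graph -/
def SS : Set (ℝ × ℝ) := {p | ∃ u v : ℕ → Fin 2, p = (XX u v, ofDigits v)}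

open Classical in
/-- the decoding map -/
noncomputable def Th (p : ℝ × ℝ) : ℝ × ℝ :=
  if h : ∃ u v : ℕ → Fin 2, p = (XX u v, ofDigits v) then (ofDigits h.choose / 2, p.2) else 0

lemma Th_spec {p : ℝ × ℝ} (hp : p ∈ SS) : ∃ u v : ℕ → Fin 2, p = (XX u v, ofDigits v) ∧
    Th p = (ofDigits u / 2, p.2) := by
  have hp' : ∃ u v : ℕ → Fin 2, p = (XX u v, ofDigits v) := hp
  obtain ⟨v, hv⟩ := hp'.choose_spec
  refine ⟨hp'.choose, v, hv, ?_⟩
  unfold Th
  rw [dif_pos hp']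

lemma Th_image : Ico (0 : ℝ) (1 / 2) ×ˢ Ico (0 : ℝ) 1 ⊆ Th '' SS := by
  rintro ⟨s, t⟩ ⟨hs, ht⟩
  simp only [mem_Ico] at hs ht
  have hu : ofDigits (digits (2 * s) 2) = 2 * s :=
    ofDigits_digits (by norm_num) ⟨by linarith [hs.1], by linarith [hs.2]⟩
  have hv : ofDigits (digits t 2) = t := ofDigits_digits (by norm_num) ht
  have hp : ((XX (digits (2 * s) 2) (digits t 2), t) : ℝ × ℝ) ∈ SS :=
    ⟨digits (2 * s) 2, digits t 2, by rw [hv]⟩
  refine ⟨_, hp, ?_⟩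
  obtain ⟨u', v', h1, h2⟩ := Th_spec hp
  rw [h2]
  have h3 := holder (digits (2 * s) 2) (digits t 2) u' v'
  have h4 : XX (digits (2 * s) 2) (digits t 2) = XX u' v' := (Prod.ext_iff.1 h1).1
  rw [h4, sub_self, abs_zero, Real.zero_rpow (by norm_num), mul_zero] at h3
  have h5 := abs_nonpos_iff.1 h3
  rw [Prod.mk.injEq]
  refine ⟨?_, rfl⟩
  linarith

/-- the mass distribution -/
noncomputable def nu : OuterMeasure (ℝ × ℝ) :=
  OuterMeasure.restrict SS (OuterMeasure.comap Th (volume : Measure (ℝ × ℝ)).toOuterMeasure)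

lemma nu_apply (A : Set (ℝ × ℝ)) : nu A = volume (Th '' (A ∩ SS)) := by
  unfold nu
  rw [OuterMeasure.restrict_apply, OuterMeasure.comap_apply]
  rfl

lemma nu_le (A : Set (ℝ × ℝ)) : nu A ≤ Metric.ediam A ^ (4 / 3 : ℝ) := by
  rw [nu_apply]
  set U1 : Set ℝ := Prod.fst '' (Th '' (A ∩ SS)) with hU1
  set U2 : Set ℝ := Prod.snd '' (Th '' (A ∩ SS)) with hU2
  have hsub : Th '' (A ∩ SS) ⊆ U1 ×ˢ U2 := fun z hz => ⟨mem_image_of_mem _ hz, mem_image_of_mem _ hz⟩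
  have h1 : Metric.ediam U1 ≤ Metric.ediam A ^ (1 / 3 : ℝ) := by
    refine Metric.ediam_le ?_
    rintro _ ⟨_, ⟨p, ⟨hpA, hpS⟩, rfl⟩, rfl⟩ _ ⟨_, ⟨p', ⟨hpA', hpS'⟩, rfl⟩, rfl⟩
    obtain ⟨u, v, e1, e2⟩ := Th_spec hpS
    obtain ⟨u', v', e1', e2'⟩ := Th_spec hpS'
    rw [e2, e2']
    simp only
    have h2 : edist (ofDigits u / 2) (ofDigits u' / 2) ≤
        ENNReal.ofReal (|XX u v - XX u' v'| ^ (1 / 3 : ℝ)) := by
      rw [edist_dist, Real.dist_eq]
      refine ENNReal.ofReal_le_ofReal ?_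
      have h3 := holder u v u' v'
      have h4 : ofDigits u / 2 - ofDigits u' / 2 = (ofDigits u - ofDigits u') / 2 := by ring
      rw [h4, abs_div, abs_of_pos (by norm_num : (0 : ℝ) < 2)]
      linarith
    refine h2.trans ?_
    rw [← ENNReal.ofReal_rpow_of_nonneg (abs_nonneg _) (by norm_num)]
    refine ENNReal.rpow_le_rpow ?_ (by norm_num)
    have h3 : ENNReal.ofReal |XX u v - XX u' v'| = edist p.1 p'.1 := by
      rw [edist_dist, Real.dist_eq, e1, e1']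
    rw [h3]
    calc edist p.1 p'.1 ≤ edist p p' := by rw [Prod.edist_eq]; exact le_max_left _ _
      _ ≤ Metric.ediam A := Metric.edist_le_ediam_of_mem hpA hpA'
  have h2 : Metric.ediam U2 ≤ Metric.ediam A := by
    refine Metric.ediam_le ?_
    rintro _ ⟨_, ⟨p, ⟨hpA, hpS⟩, rfl⟩, rfl⟩ _ ⟨_, ⟨p', ⟨hpA', hpS'⟩, rfl⟩, rfl⟩
    obtain ⟨u, v, e1, e2⟩ := Th_spec hpS
    obtain ⟨u', v', e1', e2'⟩ := Th_spec hpS'
    rw [e2, e2']
    simp only
    calc edist p.2 p'.2 ≤ edist p p' := by rw [Prod.edist_eq]; exact le_max_right _ _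
      _ ≤ Metric.ediam A := Metric.edist_le_ediam_of_mem hpA hpA'
  calc volume (Th '' (A ∩ SS)) ≤ volume (U1 ×ˢ U2) := measure_mono hsub
    _ = volume U1 * volume U2 := by rw [Measure.volume_eq_prod, Measure.prod_prod]
    _ ≤ Metric.ediam A ^ (1 / 3 : ℝ) * Metric.ediam A :=
      mul_le_mul' ((Real.volume_le_diam U1).trans h1) ((Real.volume_le_diam U2).trans h2)
    _ = Metric.ediam A ^ (4 / 3 : ℝ) := by
      nth_rewrite 2 [← ENNReal.rpow_one (Metric.ediam A)]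
      rw [← ENNReal.rpow_add_of_nonneg _ _ (by norm_num) (by norm_num)]
      norm_num

lemma hausdorff_pos : μH[((4 / 3 : ℝ≥0) : ℝ)] SS ≠ 0 := by
  have h1 : nu ≤ OuterMeasure.mkMetric (fun r : ℝ≥0∞ => r ^ (((4 / 3 : ℝ≥0) : ℝ))) := by
    refine OuterMeasure.le_mkMetric _ _ 1 one_pos (fun s _ => ?_)
    have : (((4 / 3 : ℝ≥0) : ℝ)) = (4 / 3 : ℝ) := by push_cast; rfl
    rw [this]
    exact nu_le s
  have h2 : nu SS ≤ μH[((4 / 3 : ℝ≥0) : ℝ)] SS := by
    have := h1 SS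
    rw [OuterMeasure.coe_mkMetric] at this
    exact this
  have h3 : 0 < nu SS := by
    rw [nu_apply, inter_self]
    refine lt_of_lt_of_le ?_ (measure_mono Th_image)
    rw [Measure.volume_eq_prod, Measure.prod_prod, Real.volume_Ico, Real.volume_Ico]
    norm_num
  exact (h3.trans_le h2).ne'

theorem dim_SS : ((4 / 3 : ℝ≥0) : ℝ≥0∞) ≤ dimH SS :=
  le_dimH_of_hausdorffMeasure_ne_zero hausdorff_pos

end Pool.Agent.R819.GD
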