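import Pool.Agent.H98R3.SN.N1

/-!
Maps with iterates close to the identity in measure have entropy zero.
-/

namespace Pool.Agent.R819.GD

open MeasureTheory Set Topology Filter
open Pool.Agent.Helper179.KS Pool.Agent.H98R3.SN

/-- the update variable: `k` if the label did not change, the new label otherwise -/
def upd (k : ℕ) (a b : Fin k) : Fin (k + 1) := if b = a then Fin.last k else b.castSucc

/-- reconstruction of the new label -/
def recon (k : ℕ) (a : Fin k) (d : Fin (k + 1)) : Fin k := if h : (d : ℕ) < k then ⟨d, h⟩ else a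

lemma recon_upd (k : ℕ) (a b : Fin k) : recon k a (upd k a b) = b := by
  unfold recon upd
  by_cases h : b = a
  · rw [if_pos h, dif_neg (by simp)]
    exact h.symm
  · rw [if_neg h, dif_pos (by simp)]
    rfl

section

variable {X : Type*} [MeasurableSpace X] {μ : Measure X} [IsProbabilityMeasure μ] {T : X → X}
  {k : ℕ} {P : X → Fin k}

/-- the update variable of a partition -/
def updv (T : X → X) (P : X → Fin k) (m : ℕ) (x : X) : Fin (k + 1) := upd k (P x) (P (T^[m] x))

lemma updv_meas (hT : Measurable T) (hP : Measurable P) (m : ℕ) : Measurable (updv T P m) := by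
  have h1 : Measurable (fun x => (P x, P (T^[m] x))) := hP.prodMk (hP.comp (hT.iterate m))
  have h2 : Measurable (fun p : Fin k × Fin k => upd k p.1 p.2) := measurable_of_finite _
  exact h2.comp h1

lemma H_itin_le (hT : MeasurePreserving T μ μ) (hP : Measurable P) {m : ℕ} (hm : 1 ≤ m) (n : ℕ) :
    shannonEntropy μ (itinerary T P (m + n)) ≤
      shannonEntropy μ (itinerary T P m) + n * shannonEntropy μ (updv T P m) := by
  induction n with
  | zero => simp
  | succ n ih =>
    have hmeas1 : Measurable (itinerary T P (m + n)) := measurable_itinerary hT.measurable hP _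
    have hmeas2 : Measurable (fun x => updv T P m (T^[n] x)) :=
      (updv_meas hT.measurable hP m).comp (hT.measurable.iterate n)
    have h1 := H_prod_le μ hmeas1 hmeas2
    have h2 := H_inv μ (hT.iterate n) (updv_meas hT.measurable hP m)
    rw [h2] at h1
    have h3 := H_comp_le μ (hmeas1.prodMk hmeas2)
      (fun p : (Fin (m + n) → Fin k) × Fin (k + 1) => (fun j : Fin (m + (n + 1)) =>
        if h : (j : ℕ) < m + n then p.1 ⟨j, h⟩ else recon k (p.1 ⟨n, by omega⟩) p.2))
    have h4 : (fun x => (fun p : (Fin (m + n) → Fin k) × Fin (k + 1) => (fun j : Fin (m + (n + 1)) =>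
        if h : (j : ℕ) < m + n then p.1 ⟨j, h⟩ else recon k (p.1 ⟨n, by omega⟩) p.2))
        (itinerary T P (m + n) x, updv T P m (T^[n] x))) = itinerary T P (m + (n + 1)) := by
      funext x j
      simp only
      by_cases h : (j : ℕ) < m + n
      · rw [dif_pos h]
        rfl
      · rw [dif_neg h]
        have hj : (j : ℕ) = m + n := by have := j.2; omega
        unfold itinerary updv
        simp only
        rw [recon_upd, hj, Function.iterate_add_apply]
    rw [h4] at h3
    push_cast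
    linarith

lemma eventually_H (hT : MeasurePreserving T μ μ) (hP : Measurable P) {m : ℕ} (hm : 1 ≤ m)
    {ε : ℝ} (hε : 0 < ε) (hD : shannonEntropy μ (updv T P m) ≤ ε / 2) :
    ∀ᶠ n : ℕ in atTop, shannonEntropy μ (itinerary T P n) / n ≤ 0 + ε := by
  set c := shannonEntropy μ (itinerary T P m) with hc
  have h1 : ∀ᶠ n : ℕ in atTop, 2 * c / ε ≤ (n : ℝ) :=
    tendsto_natCast_atTop_atTop.eventually_ge_atTop _
  filter_upwards [h1, eventually_ge_atTop (m + 1)] with n hn hmn
  obtain ⟨r, rfl⟩ : ∃ r, n = m + r := ⟨n - m, by omega⟩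
  have h2 := H_itin_le hT hP hm r
  have hpos : (0 : ℝ) < ((m + r : ℕ) : ℝ) := by exact_mod_cast (by omega : 0 < m + r)
  rw [zero_add, div_le_iff₀ hpos]
  rw [div_le_iff₀ hε] at hn
  have h3 : (r : ℝ) ≤ ((m + r : ℕ) : ℝ) := by push_cast; linarith [(Nat.cast_nonneg m : (0:ℝ) ≤ m)]
  have h4 : (r : ℝ) * shannonEntropy μ (updv T P m) ≤ ((m + r : ℕ) : ℝ) * (ε / 2) :=
    mul_le_mul h3 hD (shannonEntropy_nonneg μ _) hpos.le
  linarith

lemma H_updv_le (hT : Measurable T) (hP : Measurable P) {ε : ℝ} (hε : 0 < ε) :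
    ∃ θ > 0, ∀ m : ℕ, μ.real {x | P (T^[m] x) ≠ P x} ≤ θ →
      shannonEntropy μ (updv T P m) ≤ ε := by
  have hk : (0 : ℝ) < k + 1 := by positivity
  have hc := Real.continuous_negMulLog
  have h0 := (Metric.tendsto_nhds.1 (hc.tendsto 0)) (ε / (k + 1)) (by positivity)
  have h1 := (Metric.tendsto_nhds.1 (hc.tendsto 1)) (ε / (k + 1)) (by positivity)
  rw [Metric.eventually_nhds_iff] at h0 h1
  obtain ⟨θ0, hθ0, h0⟩ := h0
  obtain ⟨θ1, hθ1, h1⟩ := h1
  refine ⟨min θ0 θ1 / 2, by positivity, fun m hm => ?_⟩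
  set B : Set X := {x | P (T^[m] x) ≠ P x} with hB
  have hBm : MeasurableSet B := (measurableSet_eq_fun (hP.comp (hT.iterate m)) hP).compl
  have hm0 : μ.real B < θ0 := by
    have := min_le_left θ0 θ1
    have h3 : 0 < min θ0 θ1 := lt_min hθ0 hθ1
    linarith
  have hm1 : μ.real B < θ1 := by
    have := min_le_right θ0 θ1
    have h3 : 0 < min θ0 θ1 := lt_min hθ0 hθ1
    linarith
  unfold shannonEntropy
  rw [Fin.sum_univ_castSucc]
  have hlast : μ.real (updv T P m ⁻¹' {Fin.last k}) = 1 - μ.real B := by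
    rw [← probReal_compl_eq_one_sub hBm]
    congr 1
    ext x
    simp only [mem_preimage, mem_singleton_iff, updv, upd, hB, mem_compl_iff, mem_ofPred_eq,
      not_not]
    split_ifs with h
    · simp [h]
    · simp [h, Fin.ext_iff]
      exact (P (T^[m] x)).2.ne
  have hcast : ∀ a : Fin k, μ.real (updv T P m ⁻¹' {a.castSucc}) ≤ μ.real B := by
    intro a
    refine measureReal_mono (fun x hx => ?_) (measure_ne_top _ _)
    simp only [mem_preimage, mem_singleton_iff, updv, upd] at hx
    rw [hB, mem_ofPred_eq]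
    intro h
    rw [if_pos h] at hx
    have := congrArg Fin.val hx
    simp at this
    exact absurd this.symm a.2.ne
  have e0 : ∀ y : ℝ, 0 ≤ y → y ≤ μ.real B → Real.negMulLog y ≤ ε / (k + 1) := by
    intro y hy0 hy1
    have := h0 (y := y) (by rw [Real.dist_eq, sub_zero, abs_of_nonneg hy0]; linarith)
    rw [Real.dist_eq, Real.negMulLog_zero, sub_zero] at this
    exact (le_abs_self _).trans this.le
  have e1 : Real.negMulLog (1 - μ.real B) ≤ ε / (k + 1) := by
    have hnn : 0 ≤ μ.real B := measureReal_nonneg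
    have := h1 (y := 1 - μ.real B) (by
      rw [Real.dist_eq, abs_sub_comm, sub_sub_cancel, abs_of_nonneg hnn]; exact hm1)
    rw [Real.dist_eq, Real.negMulLog_one, sub_zero] at this
    exact (le_abs_self _).trans this.le
  rw [hlast]
  have h5 : ∑ a : Fin k, Real.negMulLog (μ.real (updv T P m ⁻¹' {a.castSucc})) ≤
      ∑ _a : Fin k, ε / (k + 1) :=
    Finset.sum_le_sum (fun a _ => e0 _ measureReal_nonneg (hcast a))
  rw [Finset.sum_const, Finset.card_univ, Fintype.card_fin, nsmul_eq_mul] at h5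
  have h6 : (k : ℝ) * (ε / (k + 1)) + ε / (k + 1) = ε := by field_simp
  linarith

end

section

variable {X : Type*} [PseudoMetricSpace X] [MeasurableSpace X] [BorelSpace X] {μ : Measure X}
  [IsProbabilityMeasure μ] {T : X → X} {k : ℕ} {P : X → Fin k}

lemma change_small (hT : MeasurePreserving T μ μ) (hP : Measurable P)
    (hrig : ∀ δ > 0, ∃ m ≥ 1, μ.real {x | δ < dist (T^[m] x) x} ≤ δ) {ε : ℝ} (hε : 0 < ε) :
    ∃ m ≥ 1, μ.real {x | P (T^[m] x) ≠ P x} ≤ ε := by
  set ε' : ℝ := ε / (2 * k + 1) with hε'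
  have hε'pos : 0 < ε' := by positivity
  have hK : ∀ a : Fin k, ∃ K ⊆ P ⁻¹' {a}, IsClosed K ∧ μ (P ⁻¹' {a} \ K) < ENNReal.ofReal ε' :=
    fun a => (hP (measurableSet_singleton a)).exists_isClosed_sdiff_lt (measure_ne_top _ _)
      (by simpa using hε'pos)
  choose K hKsub hKcl hKlt using hK
  have hev : ∀ a : Fin k, ∀ᶠ δ : ℝ in 𝓝[>] 0,
      μ (Metric.cthickening δ (K a)) < μ (K a) + ENNReal.ofReal ε' := by
    intro a
    have h1 := tendsto_measure_cthickening_of_isClosed (μ := μ) (s := K a)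
      ⟨1, one_pos, measure_ne_top _ _⟩ (hKcl a)
    have h2 : Tendsto (fun r => μ (Metric.cthickening r (K a))) (𝓝[>] 0) (𝓝 (μ (K a))) :=
      h1.mono_left nhdsWithin_le_nhds
    refine h2.eventually (gt_mem_nhds ?_)
    exact ENNReal.lt_add_right (measure_ne_top _ _) (by simpa using hε'pos)
  have hev2 : ∀ᶠ δ : ℝ in 𝓝[>] 0, δ ≤ ε' := by
    have : Iic ε' ∈ 𝓝 (0 : ℝ) := Iic_mem_nhds hε'pos
    exact mem_nhdsWithin_of_mem_nhds this
  obtain ⟨δ, hδ1, hδ2, hδ3⟩ := ((eventually_all.2 hev).and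
    (hev2.and self_mem_nhdsWithin)).exists
  have hδpos : 0 < δ := hδ3
  obtain ⟨m, hm, hm2⟩ := hrig δ hδpos
  refine ⟨m, hm, ?_⟩
  set E : Set X := {x | δ < dist (T^[m] x) x} with hE
  have hsub : {x | P (T^[m] x) ≠ P x} ⊆ E ∪ ⋃ a : Fin k, ((P ⁻¹' {a} \ K a) ∪
      T^[m] ⁻¹' (Metric.cthickening δ (K a) \ K a)) := by
    intro x hx
    by_contra hcon
    simp only [mem_union, mem_iUnion, not_or, not_exists] at hcon
    obtain ⟨h1, h2⟩ := hcon
    obtain ⟨h3, h4⟩ := h2 (P x)
    have hxK : x ∈ K (P x) := by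
      by_contra h
      exact h3 ⟨rfl, h⟩
    have h5 : dist (T^[m] x) x ≤ δ := by
      by_contra h
      push Not at h
      exact h1 h
    have h6 : T^[m] x ∈ Metric.cthickening δ (K (P x)) :=
      Metric.mem_cthickening_of_dist_le _ x δ _ hxK h5
    have h7 : T^[m] x ∈ K (P x) := by
      by_contra h
      exact h4 ⟨h6, h⟩
    exact hx (hKsub _ h7)
  have hb1 : ∀ a : Fin k, μ.real (P ⁻¹' {a} \ K a) ≤ ε' := by
    intro a
    exact ENNReal.toReal_le_of_le_ofReal hε'pos.le (hKlt a).le
  have hb2 : ∀ a : Fin k, μ.real (T^[m] ⁻¹' (Metric.cthickening δ (K a) \ K a)) ≤ ε' := by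
    intro a
    have hmeas : MeasurableSet (Metric.cthickening δ (K a) \ K a) :=
      Metric.isClosed_cthickening.measurableSet.diff (hKcl a).measurableSet
    rw [(hT.iterate m).measureReal_preimage hmeas.nullMeasurableSet]
    refine ENNReal.toReal_le_of_le_ofReal hε'pos.le ?_
    rw [measure_sdiff (Metric.self_subset_cthickening _) (hKcl a).nullMeasurableSet
      (measure_ne_top _ _)]
    rw [tsub_le_iff_left]
    exact (hδ1 a).le
  calc μ.real {x | P (T^[m] x) ≠ P x}
      ≤ μ.real (E ∪ ⋃ a : Fin k, ((P ⁻¹' {a} \ K a) ∪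
          T^[m] ⁻¹' (Metric.cthickening δ (K a) \ K a))) :=
        measureReal_mono hsub (measure_ne_top _ _)
    _ ≤ μ.real E + μ.real (⋃ a : Fin k, ((P ⁻¹' {a} \ K a) ∪
          T^[m] ⁻¹' (Metric.cthickening δ (K a) \ K a))) := measureReal_union_le _ _
    _ ≤ ε' + ∑ a : Fin k, μ.real ((P ⁻¹' {a} \ K a) ∪
          T^[m] ⁻¹' (Metric.cthickening δ (K a) \ K a)) :=
        add_le_add (hm2.trans hδ2) (measureReal_iUnion_fintype_le _)
    _ ≤ ε' + ∑ a : Fin k, (ε' + ε') := by
        refine add_le_add le_rfl (Finset.sum_le_sum (fun a _ => ?_))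
        exact (measureReal_union_le _ _).trans (add_le_add (hb1 a) (hb2 a))
    _ = ε := by
        rw [Finset.sum_const, Finset.card_univ, Fintype.card_fin, nsmul_eq_mul, hε']
        field_simp
        ring

/-- iterates close to the identity in measure: entropy zero -/
theorem ksEntropy_eq_zero (hT : MeasurePreserving T μ μ)
    (hrig : ∀ δ > 0, ∃ m ≥ 1, μ.real {x | δ < dist (T^[m] x) x} ≤ δ) : ksEntropy μ T = 0 := by
  refine le_antisymm ?_ (ksEntropy_nonneg μ T)
  rw [ksEntropy_le_iff]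
  intro k P hP
  unfold partitionEntropy
  have h := (limsup_coe_le_iff (fun n : ℕ => shannonEntropy μ (itinerary T P n) / n) 0).2
  refine h ?_
  intro ε hε
  obtain ⟨θ, hθ, hθ'⟩ := H_updv_le (μ := μ) hT.measurable hP (half_pos hε)
  obtain ⟨m, hm, hm'⟩ := change_small hT hP hrig hθ
  exact eventually_H hT hP hm hε (hθ' m hm')

end

end Pool.Agent.R819.GD
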