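import Pool.Agent.R819.GD.Base

/-!
Lebesgue preserving profiles with prescribed end values, and profiles with a prescribed
distribution and prescribed end values.
-/

namespace Pool.Agent.R819.GD

open MeasureTheory Set Topology

lemma cl_cl (x : ℝ) : cl (cl x) = cl x := cl_of_mem (cl_mem x)

lemma cl_zero : cl 0 = 0 := cl_of_mem ⟨le_rfl, zero_le_one⟩

lemma cl_one : cl 1 = 1 := cl_of_mem ⟨zero_le_one, le_rfl⟩

lemma lam_Icc {u v : ℝ} (hu : 0 ≤ u) (hv : v ≤ 1) : lam (Icc u v) = ENNReal.ofReal (v - u) := by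
  unfold lam
  rw [Measure.restrict_apply measurableSet_Icc]
  have : Icc u v ∩ Icc (0:ℝ) 1 = Icc u v := inter_eq_left.2 (Icc_subset_Icc hu hv)
  rw [this]
  simp

/-- a Lebesgue preserving profile from `a` to `0` -/
noncomputable def ee (a t : ℝ) : ℝ := min (a + 2 * cl t) (max (2 - a - 2 * cl t) (1 - cl t))

lemma ee_CL {a : ℝ} (ha : a ∈ Icc (0 : ℝ) 1) : CL (ee a) := by
  have hcont : Continuous (ee a) := by
    unfold ee
    have := continuous_cl
    fun_prop
  have hmaps : ∀ x, ee a x ∈ Icc (0 : ℝ) 1 := by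
    intro x
    have h := cl_mem x
    unfold ee
    constructor
    · refine le_min (by linarith [ha.1, h.1]) (le_max_of_le_right (by linarith [h.2]))
    · by_cases h1 : a + 2 * cl x ≤ 1
      · exact min_le_of_left_le h1
      · push Not at h1
        exact min_le_of_right_le (max_le (by linarith) (by linarith [h.1]))
  refine ⟨hcont, hmaps, fun x => by unfold ee; rw [cl_cl], ?_⟩
  refine pres_of_Ici hcont.measurable hmaps (fun y hy => ?_)
  by_cases hya : y ≤ a
  · have h1 : lam (ee a ⁻¹' Ici y) = lam (Icc 0 (1 - y)) := by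
      refine lam_congr (fun x hx => ?_)
      rw [mem_preimage, mem_Ici, mem_Icc]
      unfold ee
      rw [cl_of_mem hx, le_min_iff, le_max_iff]
      constructor
      · rintro ⟨h1, h2⟩
        refine ⟨hx.1, ?_⟩
        rcases h2 with h2 | h2 <;> linarith
      · rintro ⟨h1, h2⟩
        exact ⟨by linarith, Or.inr (by linarith)⟩
    rw [h1, lam_Icc le_rfl (by linarith [hy.1])]
    congr 1
    ring
  · push Not at hya
    have h1 : lam (ee a ⁻¹' Ici y) = lam (Icc ((y - a) / 2) ((2 - a - y) / 2)) := by
      refine lam_congr (fun x hx => ?_)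
      rw [mem_preimage, mem_Ici, mem_Icc]
      unfold ee
      rw [cl_of_mem hx, le_min_iff, le_max_iff]
      constructor
      · rintro ⟨h1, h2⟩
        refine ⟨by linarith, ?_⟩
        rcases h2 with h2 | h2 <;> linarith
      · rintro ⟨h1, h2⟩
        exact ⟨by linarith, Or.inl (by linarith)⟩
    rw [h1, lam_Icc (by linarith) (by linarith [hy.1, ha.1])]
    congr 1
    ring

/-- the flip -/
noncomputable def fl (t : ℝ) : ℝ := 1 - cl t

lemma fl_CL : CL fl := by
  have hcont : Continuous fl := continuous_const.sub continuous_cl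
  have hmaps : ∀ x, fl x ∈ Icc (0 : ℝ) 1 := by
    intro x
    have h := cl_mem x
    unfold fl
    exact ⟨by linarith [h.2], by linarith [h.1]⟩
  refine ⟨hcont, hmaps, fun x => by unfold fl; rw [cl_cl], ?_⟩
  refine pres_of_Ici hcont.measurable hmaps (fun y hy => ?_)
  have h1 : lam (fl ⁻¹' Ici y) = lam (Icc 0 (1 - y)) := by
    refine lam_congr (fun x hx => ?_)
    rw [mem_preimage, mem_Ici, mem_Icc]
    unfold fl
    rw [cl_of_mem hx]
    constructor
    · intro h1
      exact ⟨hx.1, by linarith⟩
    · rintro ⟨h1, h2⟩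
      linarith
  rw [h1, lam_Icc le_rfl (by linarith [hy.1])]
  congr 1
  ring

variable {M : ℕ} {h : ℕ → ℝ → ℝ}

lemma glue_zero (hM : 0 < M) : glue M h 0 = h 0 0 := by
  have hM' : (0 : ℝ) < M := by exact_mod_cast hM
  have h1 : (0 : ℝ) ∈ Ico (((0 : ℕ) : ℝ) / M) (((0 : ℕ) + 1) / M) := by
    refine ⟨by simp, ?_⟩
    rw [lt_div_iff₀ hM']
    simp
  rw [glue_Ico hM h1]
  simp

lemma glue_one (hM : 0 < M) : glue M h 1 = h (M - 1) 1 := by
  unfold glue
  rw [cl_one, mul_one, Nat.floor_natCast, min_eq_right (by omega), Nat.cast_sub (by omega)]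
  simp

lemma glue_CL (hM : 0 < M) (hh : ∀ i < M, CL (h i))
    (hmatch : ∀ i, i + 1 < M → h i 1 = h (i + 1) 0) : CL (glue M h) := by
  have hM' : (0 : ℝ) < M := by exact_mod_cast hM
  have hcont : Continuous (glue M h) := glue_continuous hM (fun i hi => (hh i hi).cont) hmatch
  refine ⟨hcont, ?_, fun x => glue_cl x, ?_⟩
  · exact glue_mem hM hmatch (fun i hi t _ => (hh i hi).maps t)
  · intro A hA
    rw [glue_measure hM (fun i hi => (hh i hi).cont.measurable) hcont.measurable hA,
      Finset.sum_congr rfl (fun i hi => (hh i (Finset.mem_range.1 hi)).pres A hA),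
      Finset.sum_const, Finset.card_range, nsmul_eq_mul, ← mul_assoc]
    have : ENNReal.ofReal (1 / M) * (M : ENNReal) = 1 := by
      rw [← ENNReal.ofReal_natCast M, ← ENNReal.ofReal_mul (by positivity)]
      rw [one_div, inv_mul_cancel₀ hM'.ne', ENNReal.ofReal_one]
    rw [this, one_mul]

/-- a Lebesgue preserving profile from `a` to `b` -/
noncomputable def fill (a b : ℝ) : ℝ → ℝ := glue 2 (fun i => if i = 0 then ee a else ee b ∘ fl)

lemma ee_zero {a : ℝ} (ha : a ∈ Icc (0 : ℝ) 1) : ee a 0 = a := by
  unfold ee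
  rw [cl_zero, min_eq_left]
  · ring
  · refine le_max_of_le_right ?_
    linarith [ha.2]

lemma ee_one {a : ℝ} (ha : a ∈ Icc (0 : ℝ) 1) : ee a 1 = 0 := by
  unfold ee
  rw [cl_one, max_eq_right (by linarith [ha.1]), min_eq_right (by linarith [ha.1])]
  ring

lemma fill_CL {a b : ℝ} (ha : a ∈ Icc (0 : ℝ) 1) (hb : b ∈ Icc (0 : ℝ) 1) : CL (fill a b) := by
  unfold fill
  refine glue_CL two_pos ?_ ?_
  · intro i hi
    by_cases h0 : i = 0
    · simp only [h0, if_true]
      exact ee_CL ha
    · simp only [h0, if_false]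
      exact (ee_CL hb).comp fl_CL
  · intro i hi
    have h0 : i = 0 := by omega
    subst h0
    simp only [if_true]
    rw [if_neg (by norm_num)]
    simp only [Function.comp_apply, fl, cl_zero, sub_zero]
    rw [ee_one ha, ee_one hb]

lemma fill_zero {a b : ℝ} (ha : a ∈ Icc (0 : ℝ) 1) : fill a b 0 = a := by
  unfold fill
  rw [glue_zero two_pos]
  simp only [if_true]
  exact ee_zero ha

lemma fill_one {a b : ℝ} (hb : b ∈ Icc (0 : ℝ) 1) : fill a b 1 = b := by
  unfold fill
  rw [glue_one two_pos]
  rw [if_neg (by norm_num)]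
  simp only [Function.comp_apply, fl, cl_one, sub_self]
  exact ee_zero hb

/-- profiles with prescribed distribution and end values -/
lemma exists_fill {H : ℝ → ℝ} {c d : ℝ} (hH : Continuous H) (hcd : c < d)
    (hmono : StrictMonoOn H (Icc c d)) (hc : H c = 0) (hd : H d = 1) {p q : ℝ}
    (hp : p ∈ Icc c d) (hq : q ∈ Icc c d) :
    ∃ G : ℝ → ℝ, Continuous G ∧ (∀ t, G t ∈ Icc c d) ∧ G 0 = p ∧ G 1 = q ∧
      ∀ y ∈ Icc c d, lam (G ⁻¹' Ici y) = ENNReal.ofReal (1 - H y) := by
  have hH01 : ∀ y ∈ Icc c d, H y ∈ Icc (0 : ℝ) 1 := by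
    intro y hy
    constructor
    · rw [← hc]
      exact hmono.monotoneOn ⟨le_rfl, hcd.le⟩ hy hy.1
    · rw [← hd]
      exact hmono.monotoneOn hy ⟨hcd.le, le_rfl⟩ hy.2
  set r : ℝ → ℝ := fun y => max c (min d y) with hr
  have hrmem : ∀ y, r y ∈ Icc c d := fun y =>
    ⟨le_max_left _ _, max_le hcd.le (min_le_left _ _)⟩
  have hrid : ∀ y ∈ Icc c d, r y = y := by
    intro y hy
    simp only [hr]
    rw [min_eq_right hy.2, max_eq_right hy.1]
  have hrmono : Monotone r := by
    intro x y hxy
    simp only [hr]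
    exact max_le_max le_rfl (min_le_min le_rfl hxy)
  have hrlip : ∀ x y, x ≤ y → r y - r x ≤ y - x := by
    intro x y hxy
    simp only [hr]
    rcases le_total d x with h1 | h1
    · rw [min_eq_left h1, min_eq_left (h1.trans hxy)]
      linarith
    · rw [min_eq_right h1]
      rcases le_total c x with h2 | h2
      · rw [max_eq_right h2]
        have : max c (min d y) ≤ y := max_le (h2.trans hxy) (min_le_right _ _)
        linarith
      · rw [max_eq_left h2]
        have : max c (min d y) ≤ max c y := max_le_max le_rfl (min_le_right _ _)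
        rcases le_total c y with h3 | h3
        · rw [max_eq_right h3] at this
          linarith
        · rw [max_eq_left h3] at this
          linarith
  set K : ℝ → ℝ := fun y => H (r y) + (y - r y) with hK
  have hKcont : Continuous K := by
    have : Continuous r := continuous_const.max (continuous_const.min continuous_id)
    exact (hH.comp this).add (continuous_id.sub this)
  have hKmono : StrictMono K := by
    intro x y hxy
    simp only [hK]
    rcases (hrmono hxy.le).lt_or_eq with h1 | h1
    · have h2 := hmono (hrmem x) (hrmem y) h1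
      have h3 := hrlip x y hxy.le
      linarith
    · rw [h1]
      linarith
  have hKtop : Filter.Tendsto K Filter.atTop Filter.atTop := by
    refine Filter.tendsto_atTop_mono (f := fun y => y - d) (fun y => ?_)
      (Filter.tendsto_atTop_add_const_right _ _ Filter.tendsto_id)
    simp only [hK]
    have h1 := (hH01 _ (hrmem y)).1
    have h2 := (hrmem y).2
    linarith
  have hKbot : Filter.Tendsto K Filter.atBot Filter.atBot := by
    have hlin : Filter.Tendsto (fun y : ℝ => y + (1 - c)) Filter.atBot Filter.atBot :=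
      Filter.tendsto_atBot_add_const_right _ _ Filter.tendsto_id
    refine Filter.tendsto_atBot_mono (fun y => ?_) hlin
    simp only [hK]
    have h1 := (hH01 _ (hrmem y)).2
    have h2 := (hrmem y).1
    linarith
  have hKsurj : Function.Surjective K := hKcont.surjective hKtop hKbot
  set e : ℝ ≃o ℝ := hKmono.orderIsoOfSurjective K hKsurj with he
  have heK : ∀ y, e y = K y := fun y => rfl
  have heH : ∀ y ∈ Icc c d, e y = H y := by
    intro y hy
    rw [heK]
    simp only [hK]
    rw [hrid y hy]
    ring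
  have hHp := hH01 p hp
  have hHq := hH01 q hq
  have hfCL := fill_CL hHp hHq
  refine ⟨fun t => e.symm (fill (H p) (H q) t), e.symm.continuous.comp hfCL.cont, ?_, ?_, ?_, ?_⟩
  · intro t
    have h1 := hfCL.maps t
    constructor
    · rw [e.le_symm_apply, heH c ⟨le_rfl, hcd.le⟩, hc]
      exact h1.1
    · rw [e.symm_apply_le, heH d ⟨hcd.le, le_rfl⟩, hd]
      exact h1.2
  · simp only
    rw [fill_zero hHp, ← heH p hp, e.symm_apply_apply]
  · simp only
    rw [fill_one hHq, ← heH q hq, e.symm_apply_apply]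
  · intro y hy
    have h1 : (fun t => e.symm (fill (H p) (H q) t)) ⁻¹' Ici y = fill (H p) (H q) ⁻¹' Ici (H y) := by
      ext t
      rw [mem_preimage, mem_preimage, mem_Ici, mem_Ici, e.le_symm_apply, heH y hy]
    rw [h1, hfCL.pres _ measurableSet_Ici, lam_Ici (hH01 y hy)]

end Pool.Agent.R819.GD
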