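import Pool.Agent.R819.GD.Cells

/-!
Piecewise linear distribution functions and profiles realizing them.
-/

namespace Pool.Agent.R819.GD

open MeasureTheory Set Topology Filter

lemma cl_nonpos {x : ℝ} (hx : x ≤ 0) : cl x = 0 := by
  unfold cl
  rw [max_eq_left]
  exact (min_le_right _ _).trans hx

lemma cl_ge_one {x : ℝ} (hx : 1 ≤ x) : cl x = 1 := by
  unfold cl
  rw [min_eq_left hx]
  norm_num

lemma cl_mono : Monotone cl := by
  intro x y hxy
  unfold cl
  exact max_le_max le_rfl (min_le_min le_rfl hxy)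

lemma sum_cl (N : ℕ) : ∀ z : ℝ, 0 ≤ z → z ≤ N → ∑ l ∈ Finset.range N, cl (z - l) = z := by
  induction N with
  | zero =>
    intro z h0 h1
    simp only [Finset.range_zero, Finset.sum_empty]
    simp at h1
    linarith
  | succ N ih =>
    intro z h0 h1
    rw [Finset.sum_range_succ]
    push_cast at h1
    rcases le_total z N with h2 | h2
    · rw [ih z h0 h2, cl_nonpos (by linarith), add_zero]
    · have h3 : ∑ l ∈ Finset.range N, cl (z - l) = N := by
        have : ∀ l ∈ Finset.range N, cl (z - l) = 1 := by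
          intro l hl
          apply cl_ge_one
          have : (l : ℝ) + 1 ≤ N := by exact_mod_cast Finset.mem_range.1 hl
          linarith
        rw [Finset.sum_congr rfl this]
        simp
      rw [h3, cl_of_mem ⟨by linarith, by linarith⟩]
      ring

/-- the distribution function with weight `w l` on the cell `l` -/
noncomputable def HH (N : ℕ) (w : ℕ → ℝ) (y : ℝ) : ℝ :=
  ∑ l ∈ Finset.range N, w l * cl (N * y - l)

lemma HH_cont (N : ℕ) (w : ℕ → ℝ) : Continuous (HH N w) := by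
  unfold HH
  refine continuous_finsetSum _ (fun l _ => ?_)
  have := continuous_cl
  fun_prop

lemma HH_cell {N : ℕ} (hN : 0 < N) (w : ℕ → ℝ) {l : ℕ} (hl : l < N) :
    HH N w ((l + 1) / N) - HH N w (l / N) = w l := by
  have hN' : (0 : ℝ) < N := by exact_mod_cast hN
  unfold HH
  rw [← Finset.sum_sub_distrib]
  rw [Finset.sum_eq_single l]
  · have h1 : (N : ℝ) * ((l + 1) / N) - l = 1 := by field_simp; ring
    have h2 : (N : ℝ) * (l / N) - l = 0 := by field_simp; ring
    rw [h1, h2, cl_one, cl_zero]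
    ring
  · intro b _ hb
    have h1 : (N : ℝ) * ((l + 1) / N) - b = l + 1 - b := by field_simp
    have h2 : (N : ℝ) * (l / N) - b = l - b := by field_simp
    rw [h1, h2]
    rcases Nat.lt_or_gt_of_ne hb with h3 | h3
    · have h4 : (b : ℝ) + 1 ≤ l := by exact_mod_cast h3
      rw [cl_ge_one (by linarith), cl_ge_one (by linarith)]
      ring
    · have h4 : (l : ℝ) + 1 ≤ b := by exact_mod_cast h3
      rw [cl_nonpos (by linarith), cl_nonpos (by linarith)]
      ring
  · intro h
    exact absurd (Finset.mem_range.2 hl) h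

lemma exists_profile {N : ℕ} (hN : 0 < N) {w : ℕ → ℝ} (hw0 : ∀ l < N, 0 ≤ w l) {lo hi : ℕ}
    (hlohi : lo < hi) (hhi : hi ≤ N) (hpos : ∀ l, lo ≤ l → l < hi → 0 < w l)
    (hzero : ∀ l < N, (l < lo ∨ hi ≤ l) → w l = 0) (hsum : ∑ l ∈ Finset.range N, w l = 1)
    {p q : ℝ} (hp : p ∈ Icc ((lo : ℝ) / N) (hi / N)) (hq : q ∈ Icc ((lo : ℝ) / N) (hi / N)) :
    ∃ G : ℝ → ℝ, Continuous G ∧ (∀ t, G t ∈ Icc ((lo : ℝ) / N) (hi / N)) ∧ G 0 = p ∧ G 1 = q ∧
      (∀ y, lam.real (G ⁻¹' Ici y) = 1 - HH N w y) ∧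
      (∀ l < N, lam.real (G ⁻¹' J N l) = w l) := by
  have hN' : (0 : ℝ) < N := by exact_mod_cast hN
  have hlow : ∀ y ≤ (lo : ℝ) / N, HH N w y = 0 := by
    intro y hy
    rw [le_div_iff₀ hN'] at hy
    unfold HH
    refine Finset.sum_eq_zero (fun l hl => ?_)
    rcases lt_or_ge l lo with h1 | h1
    · rw [hzero l (Finset.mem_range.1 hl) (Or.inl h1), zero_mul]
    · have h2 : (lo : ℝ) ≤ l := by exact_mod_cast h1
      rw [cl_nonpos (by linarith), mul_zero]
  have hhigh : ∀ y, (hi : ℝ) / N ≤ y → HH N w y = 1 := by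
    intro y hy
    rw [div_le_iff₀ hN'] at hy
    rw [← hsum]
    unfold HH
    refine Finset.sum_congr rfl (fun l hl => ?_)
    rcases lt_or_ge l hi with h1 | h1
    · have h2 : (l : ℝ) + 1 ≤ hi := by exact_mod_cast h1
      rw [cl_ge_one (by linarith), mul_one]
    · rw [hzero l (Finset.mem_range.1 hl) (Or.inr h1), zero_mul]
  have hcd : (lo : ℝ) / N < hi / N := by
    apply div_lt_div_of_pos_right _ hN'
    exact_mod_cast hlohi
  have hstrict : StrictMonoOn (HH N w) (Icc ((lo : ℝ) / N) (hi / N)) := by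
    intro x hx y hy hxy
    have hx1 := hx.1
    have hy2 := hy.2
    rw [div_le_iff₀ hN', mul_comm] at hx1
    rw [le_div_iff₀ hN', mul_comm] at hy2
    have hNxy : (N : ℝ) * x < N * y := mul_lt_mul_of_pos_left hxy hN'
    have hNx0 : 0 ≤ (N : ℝ) * x := (Nat.cast_nonneg lo).trans hx1
    set l := ⌊(N : ℝ) * x⌋₊ with hl
    have hl1 : lo ≤ l := Nat.le_floor hx1
    have hl2 : l < hi := by
      rw [hl, Nat.floor_lt hNx0]
      linarith
    have hl3 : (l : ℝ) ≤ N * x := Nat.floor_le hNx0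
    have hl4 : (N : ℝ) * x < l + 1 := Nat.lt_floor_add_one _
    unfold HH
    refine Finset.sum_lt_sum (fun b hb => ?_) ⟨l, Finset.mem_range.2 (by omega), ?_⟩
    · exact mul_le_mul_of_nonneg_left (cl_mono (by linarith)) (hw0 b (Finset.mem_range.1 hb))
    · refine mul_lt_mul_of_pos_left ?_ (hpos l hl1 hl2)
      rw [cl_of_mem ⟨by linarith, by linarith⟩]
      rcases le_total ((N : ℝ) * y - l) 1 with h1 | h1
      · rw [cl_of_mem ⟨by linarith, h1⟩]
        linarith
      · rw [cl_ge_one h1]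
        linarith
  obtain ⟨G, hG1, hG2, hG3, hG4, hG5⟩ := exists_fill (HH_cont N w) hcd hstrict (hlow _ le_rfl)
    (hhigh _ le_rfl) hp hq
  have key : ∀ y, lam.real (G ⁻¹' Ici y) = 1 - HH N w y := by
    intro y
    rcases lt_or_ge y ((lo : ℝ) / N) with h1 | h1
    · rw [hlow y h1.le]
      unfold Measure.real
      rw [lam_univ' (S := G ⁻¹' Ici y) (fun t _ => h1.le.trans (hG2 t).1)]
      simp
    · rcases le_or_gt y ((hi : ℝ) / N) with h2 | h2
      · unfold Measure.real
        rw [hG5 y ⟨h1, h2⟩, ENNReal.toReal_ofReal]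
        have h3 : HH N w y ≤ HH N w (hi / N) :=
          hstrict.monotoneOn ⟨h1, h2⟩ ⟨hcd.le, le_rfl⟩ h2
        rw [hhigh _ le_rfl] at h3
        linarith
      · rw [hhigh y h2.le]
        have : G ⁻¹' Ici y = ∅ := by
          ext t
          simp only [mem_preimage, mem_Ici, mem_empty_iff_false, iff_false, not_le]
          exact (hG2 t).2.trans_lt h2
        rw [this]
        simp
  refine ⟨G, hG1, hG2, hG3, hG4, key, fun l hl => ?_⟩
  have h1 : G ⁻¹' J N l = G ⁻¹' Ici ((l : ℝ) / N) \ G ⁻¹' Ici (((l : ℝ) + 1) / N) := by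
    ext t
    simp only [mem_preimage, Set.mem_sdiff, mem_Ici, not_le, J, mem_Ico]
  rw [h1, measureReal_sdiff ?_ (hG1.measurable measurableSet_Ici), key, key,
    ← HH_cell hN w hl]
  · ring
  · refine preimage_mono (Ici_subset_Ici.2 ?_)
    apply div_le_div_of_nonneg_right _ hN'.le
    linarith

end Pool.Agent.R819.GD
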