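import Pool.Agent.R819.GD.Step

/-!
The limit map.
-/

namespace Pool.Agent.R819.GD

open MeasureTheory Set Topology Filter

lemma iter_close {g : ℝ → ℝ} (hg : CL g) (m : ℕ) : ∀ ε > 0, ∃ η > 0, ∀ h : ℝ → ℝ,
    (∀ x, h x ∈ Icc (0 : ℝ) 1) → (∀ x ∈ Icc (0 : ℝ) 1, |h x - g x| ≤ η) →
    ∀ x ∈ Icc (0 : ℝ) 1, |h^[m] x - g^[m] x| ≤ ε := by
  induction m with
  | zero =>
    intro ε hε
    refine ⟨1, one_pos, fun h _ _ x _ => ?_⟩
    simp only [Function.iterate_zero, id, sub_self, abs_zero]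
    exact hε.le
  | succ m ih =>
    intro ε hε
    have huc : UniformContinuousOn g (Icc 0 1) :=
      isCompact_Icc.uniformContinuousOn_of_continuous hg.cont.continuousOn
    rw [Metric.uniformContinuousOn_iff_le] at huc
    obtain ⟨δ, hδ, hδ'⟩ := huc (ε / 2) (by positivity)
    obtain ⟨η, hη, hη'⟩ := ih δ hδ
    refine ⟨min η (ε / 2), by positivity, fun h hmaps hh x hx => ?_⟩
    have h1 := hη' h hmaps (fun y hy => (hh y hy).trans (min_le_left _ _)) x hx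
    rw [Function.iterate_succ_apply', Function.iterate_succ_apply']
    have hmem : ∀ (φ : ℝ → ℝ), (∀ x, φ x ∈ Icc (0 : ℝ) 1) → φ^[m] x ∈ Icc (0 : ℝ) 1 := by
      intro φ hφ
      cases m with
      | zero => simpa using hx
      | succ m =>
        rw [Function.iterate_succ_apply']
        exact hφ _
    have h2 := hh _ (hmem h hmaps)
    have h3 := hδ' _ (hmem h hmaps) _ (hmem g hg.maps) (by rw [Real.dist_eq]; exact h1)
    rw [Real.dist_eq] at h3
    have h4 : |h (h^[m] x) - g (h^[m] x)| ≤ ε / 2 := h2.trans (min_le_right _ _)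
    calc |h (h^[m] x) - g (g^[m] x)|
        ≤ |h (h^[m] x) - g (h^[m] x)| + |g (h^[m] x) - g (g^[m] x)| := abs_sub_le _ _ _
      _ ≤ ε := by linarith

/-- states of the construction -/
structure St where
  f : ℝ → ℝ
  n : ℕ
  η : ℝ
  cl : CL f
  eqF : ∀ x ∈ W n, f x = F x
  pos : 0 < η

lemma next_exists (k : ℕ) (hk : 1 ≤ k) (s : St) : ∃ s' : St,
    (∀ x ∈ Icc (0 : ℝ) 1, |s'.f x - s.f x| ≤ s.η / 2) ∧ s'.η ≤ s.η / 2 ∧
    ∃ m ≥ 1, ∀ h : ℝ → ℝ, (∀ x, h x ∈ Icc (0 : ℝ) 1) →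
      (∀ x ∈ Icc (0 : ℝ) 1, |h x - s'.f x| ≤ s'.η) →
      lam.real {x | 2 / (k : ℝ) < |h^[m] x - x|} ≤ 1 / k := by
  have hk' : (0 : ℝ) < k := by exact_mod_cast hk
  obtain ⟨n, _, g, m, hm, hg, hgF, hgf, hbad⟩ := step s.cl s.eqF (half_pos s.pos) hk
  obtain ⟨η, hη, hη'⟩ := iter_close hg m (1 / k) (by positivity)
  refine ⟨⟨g, n, min η (s.η / 2), hg, hgF, lt_min hη (half_pos s.pos)⟩, hgf,
    min_le_right _ _, m, hm, fun h hmaps hh => ?_⟩
  simp only at hh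
  have h1 := hη' h hmaps (fun y hy => (hh y hy).trans (min_le_left _ _))
  refine le_trans ?_ hbad
  have h2 : lam.real {x | 2 / (k : ℝ) < |h^[m] x - x|} =
      lam.real ({x | 2 / (k : ℝ) < |h^[m] x - x|} ∩ Icc 0 1) := by
    refine real_congr (fun x hx => ?_)
    constructor
    · intro h3; exact ⟨h3, hx⟩
    · intro h3; exact h3.1
  rw [h2]
  refine measureReal_mono ?_ (measure_ne_top _ _)
  rintro x ⟨hx1, hx2⟩
  have h3 := h1 x hx2
  have h4 : 2 / (k : ℝ) < |h^[m] x - x| := hx1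
  have h5 : |h^[m] x - x| ≤ |h^[m] x - g^[m] x| + |g^[m] x - x| := abs_sub_le _ _ _
  have h6 : 2 / (k : ℝ) = 1 / k + 1 / k := by ring
  rw [mem_ofPred_eq]
  linarith

/-- the sequence of states -/
noncomputable def Sq : ℕ → St
  | 0 => ⟨F, 0, 1, F_adm.cl, fun _ _ => rfl, one_pos⟩
  | i + 1 => (next_exists (i + 1) (by omega) (Sq i)).choose

lemma Sq_spec (i : ℕ) :
    (∀ x ∈ Icc (0 : ℝ) 1, |(Sq (i + 1)).f x - (Sq i).f x| ≤ (Sq i).η / 2) ∧
    (Sq (i + 1)).η ≤ (Sq i).η / 2 ∧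
    ∃ m ≥ 1, ∀ h : ℝ → ℝ, (∀ x, h x ∈ Icc (0 : ℝ) 1) →
      (∀ x ∈ Icc (0 : ℝ) 1, |h x - (Sq (i + 1)).f x| ≤ (Sq (i + 1)).η) →
      lam.real {x | 2 / ((i + 1 : ℕ) : ℝ) < |h^[m] x - x|} ≤ 1 / ((i + 1 : ℕ) : ℝ) :=
  (next_exists (i + 1) (by omega) (Sq i)).choose_spec

lemma Sq_dist (i : ℕ) (x : ℝ) : |(Sq (i + 1)).f x - (Sq i).f x| ≤ (Sq i).η / 2 := by
  rw [← (Sq (i + 1)).cl.clamp x, ← (Sq i).cl.clamp x]
  exact (Sq_spec i).1 _ (cl_mem x)

lemma Sq_η (i : ℕ) : (Sq i).η ≤ (1 / 2) ^ i := by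
  induction i with
  | zero => simp [Sq]
  | succ i ih =>
    refine (Sq_spec i).2.1.trans ?_
    rw [pow_succ]
    linarith

theorem limit_map : ∃ f : ℝ → ℝ, CL f ∧ (∀ x, (∀ n, x ∈ W n) → f x = F x) ∧
    ∀ k : ℕ, 1 ≤ k → ∃ m ≥ 1, lam.real {x | 2 / (k : ℝ) < |f^[m] x - x|} ≤ 1 / k := by
  have hd : ∀ x i, dist ((Sq i).f x) ((Sq (i + 1)).f x) ≤ 1 * (1 / 2) ^ i := by
    intro x i
    rw [dist_comm, Real.dist_eq]
    refine (Sq_dist i x).trans ?_
    have := Sq_η i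
    have h2 : (0 : ℝ) ≤ (1 / 2) ^ i := by positivity
    linarith
  have hcau : ∀ x, ∃ y, Tendsto (fun i => (Sq i).f x) atTop (𝓝 y) := fun x =>
    cauchySeq_tendsto_of_complete (cauchySeq_of_le_geometric (1 / 2) 1 (by norm_num) (hd x))
  choose f hf using hcau
  have hbd : ∀ x i j, i ≤ j → |(Sq j).f x - (Sq i).f x| ≤ (Sq i).η - (Sq j).η := by
    intro x i j hij
    induction j, hij using Nat.le_induction with
    | base => simp
    | succ j hij ih =>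
      have h1 := Sq_dist j x
      have h2 := (Sq_spec j).2.1
      have h3 := abs_sub_le ((Sq (j + 1)).f x) ((Sq j).f x) ((Sq i).f x)
      linarith
  have hlim : ∀ x i, |f x - (Sq i).f x| ≤ (Sq i).η := by
    intro x i
    have h1 : Tendsto (fun j => |(Sq j).f x - (Sq i).f x|) atTop (𝓝 |f x - (Sq i).f x|) :=
      ((hf x).sub_const _).abs
    refine le_of_tendsto h1 ?_
    filter_upwards [eventually_ge_atTop i] with j hj
    have := hbd x i j hj
    have h2 := (Sq j).pos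
    linarith
  have hunif : TendstoUniformly (fun i => (Sq i).f) f atTop := by
    rw [Metric.tendstoUniformly_iff]
    intro ε hε
    have h1 := tendsto_pow_atTop_nhds_zero_of_lt_one (r := (1 / 2 : ℝ)) (by norm_num)
      (by norm_num)
    filter_upwards [h1.eventually (gt_mem_nhds hε)] with n hn x
    rw [Real.dist_eq]
    exact ((hlim x n).trans (Sq_η n)).trans_lt hn
  have hcont : Continuous f := hunif.continuous (Frequently.of_forall (fun n => (Sq n).cl.cont))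
  have hCL : CL f := CL.of_tendsto (fun n => (Sq n).cl) hcont hf
  refine ⟨f, hCL, ?_, ?_⟩
  · intro x hx
    refine tendsto_nhds_unique (hf x) ?_
    have : ∀ i, (Sq i).f x = F x := fun i => (Sq i).eqF x (hx _)
    simp only [this]
    exact tendsto_const_nhds
  · intro k hk
    obtain ⟨i, rfl⟩ : ∃ i, k = i + 1 := ⟨k - 1, by omega⟩
    obtain ⟨m, hm, h⟩ := (Sq_spec i).2.2
    exact ⟨m, hm, h f hCL.maps (fun x _ => hlim x (i + 1))⟩

end Pool.Agent.R819.GD
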