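import Pool.Agent.R819.GD.Fill

/-!
The self-affine Lebesgue preserving start map and the sets `W n`.
-/

namespace Pool.Agent.R819.GD

open MeasureTheory Set Topology Filter

lemma real_eq_iff {S T : Set ℝ} : lam.real S = lam.real T ↔ lam S = lam T := by
  unfold Measure.real
  exact ENNReal.toReal_eq_toReal_iff' (measure_ne_top _ _) (measure_ne_top _ _)

lemma CL.pres_real {f : ℝ → ℝ} (h : CL f) {A : Set ℝ} (hA : MeasurableSet A) :
    lam.real (f ⁻¹' A) = lam.real A := real_eq_iff.2 (h.pres A hA)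

lemma real_congr {S T : Set ℝ} (h : ∀ x ∈ Icc (0 : ℝ) 1, (x ∈ S ↔ x ∈ T)) :
    lam.real S = lam.real T := real_eq_iff.2 (lam_congr h)

variable {M : ℕ} {h : ℕ → ℝ → ℝ}

lemma glue_real (hM : 0 < M) (hm : ∀ i < M, Measurable (h i))
    (hg : Measurable (glue M h)) {A : Set ℝ} (hA : MeasurableSet A) :
    lam.real (glue M h ⁻¹' A) = (1 / M) * ∑ i ∈ Finset.range M, lam.real (h i ⁻¹' A) := by
  unfold Measure.real
  rw [glue_measure hM hm hg hA, ENNReal.toReal_mul, ENNReal.toReal_ofReal (by positivity),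
    ENNReal.toReal_sum (fun i _ => measure_ne_top _ _)]

lemma lam_cells (hM : 0 < M) {B : Set ℝ} (hB : MeasurableSet B) :
    lam.real B = (1 / M) * ∑ i ∈ Finset.range M, lam.real ((fun t : ℝ => (i + t) / M) ⁻¹' B) := by
  have hM' : (0 : ℝ) < M := by exact_mod_cast hM
  have h1 : lam B = ENNReal.ofReal (1 / M) *
      ∑ i ∈ Finset.range M, lam ((fun t : ℝ => (i + t) / M) ⁻¹' B) := by
    rw [lam_apply hB, volume_Ico_eq_sum hM hB, Finset.mul_sum]
    refine Finset.sum_congr rfl (fun i _ => ?_)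
    have := cell_measure (g := id) (k := fun t : ℝ => (i + t) / M) hM (i := i)
      (by fun_prop) (fun x _ => by simp only [id]; field_simp; ring) hB
    rw [← this, preimage_id]
  unfold Measure.real
  rw [h1, ENNReal.toReal_mul, ENNReal.toReal_ofReal (by positivity),
    ENNReal.toReal_sum (fun i _ => measure_ne_top _ _)]

lemma cl_CL : CL cl := by
  refine ⟨continuous_cl, cl_mem, cl_cl, fun A hA => lam_congr (fun x hx => ?_)⟩
  rw [mem_preimage, cl_of_mem hx]

/-- the free profiles of the start map -/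
noncomputable def free (i : ℕ) : ℝ → ℝ :=
  if i = 0 then fill 0 0 else if i = 4 then fill 1 0 else fill (1 / 2) (1 / 2)

/-- the profiles of the self-affine operator -/
noncomputable def prof (h : ℝ → ℝ) (i : ℕ) : ℝ → ℝ :=
  if i % 2 = 1 then (fun t => (((i / 2) % 2 : ℕ) + h t) / 2) else free i

/-- the self-affine operator -/
noncomputable def Phi (h : ℝ → ℝ) : ℝ → ℝ := glue 8 (prof h)

/-- the admissible maps -/
structure Adm (h : ℝ → ℝ) : Prop where
  cl : CL h
  zero : h 0 = 0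
  one : h 1 = 1

lemma prof_match {h : ℝ → ℝ} (hh : Adm h) : ∀ i, i + 1 < 8 → prof h i 1 = prof h (i + 1) 0 := by
  intro i hi
  have z : (0 : ℝ) ∈ Icc (0 : ℝ) 1 := ⟨le_rfl, zero_le_one⟩
  have o : (1 : ℝ) ∈ Icc (0 : ℝ) 1 := ⟨zero_le_one, le_rfl⟩
  have k : (1 / 2 : ℝ) ∈ Icc (0 : ℝ) 1 := ⟨by norm_num, by norm_num⟩
  have h1 := hh.zero
  have h2 := hh.one
  have f1 : fill 0 0 1 = 0 := fill_one z
  have f2 : fill 1 0 1 = 0 := fill_one z
  have f3 : fill 1 0 0 = 1 := fill_zero o
  have f4 : fill (1 / 2) (1 / 2) 0 = 1 / 2 := fill_zero k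
  have f5 : fill (1 / 2) (1 / 2) 1 = 1 / 2 := fill_one k
  have : i < 7 := by omega
  interval_cases i <;> norm_num [prof, free, h1, h2, f1, f2, f3, f4, f5]

lemma free_CL (i : ℕ) : CL (free i) := by
  unfold free
  split_ifs
  · exact fill_CL ⟨le_rfl, zero_le_one⟩ ⟨le_rfl, zero_le_one⟩
  · exact fill_CL ⟨zero_le_one, le_rfl⟩ ⟨le_rfl, zero_le_one⟩
  · exact fill_CL ⟨by norm_num, by norm_num⟩ ⟨by norm_num, by norm_num⟩

/-- the two branches -/
noncomputable def br (v : ℕ) (y : ℝ) : ℝ := (v + y) / 2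

lemma br_measurable (v : ℕ) : Measurable (br v) := by
  unfold br
  fun_prop

lemma br_sum {A : Set ℝ} (hA : MeasurableSet A) :
    lam.real (br 0 ⁻¹' A) + lam.real (br 1 ⁻¹' A) = 2 * lam.real A := by
  have h1 := lam_cells (M := 2) two_pos hA
  rw [Finset.sum_range_succ, Finset.sum_range_one] at h1
  have h2 : (fun t : ℝ => (((0 : ℕ) : ℝ) + t) / ((2 : ℕ) : ℝ)) = br 0 := by
    unfold br; norm_num
  have h3 : (fun t : ℝ => (((1 : ℕ) : ℝ) + t) / ((2 : ℕ) : ℝ)) = br 1 := by
    unfold br; norm_num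
  rw [h2, h3] at h1
  rw [h1]
  push_cast
  ring

lemma prof_odd (h : ℝ → ℝ) {i : ℕ} (hi : i % 2 = 1) : prof h i = br ((i / 2) % 2) ∘ h := by
  unfold prof
  rw [if_pos hi]
  rfl

lemma prof_even (h : ℝ → ℝ) {i : ℕ} (hi : i % 2 ≠ 1) : prof h i = free i := by
  unfold prof
  rw [if_neg hi]

lemma prof_cont {h : ℝ → ℝ} (hh : Continuous h) (i : ℕ) : Continuous (prof h i) := by
  by_cases hi : i % 2 = 1
  · rw [prof_odd h hi]
    unfold br
    fun_prop
  · rw [prof_even h hi]
    exact (free_CL i).cont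

lemma Phi_adm {h : ℝ → ℝ} (hh : Adm h) : Adm (Phi h) := by
  have h8 : 0 < 8 := by norm_num
  have hcont : Continuous (Phi h) :=
    glue_continuous h8 (fun i _ => prof_cont hh.cl.cont i) (prof_match hh)
  refine ⟨⟨hcont, ?_, fun x => glue_cl x, ?_⟩, ?_, ?_⟩
  · refine glue_mem h8 (prof_match hh) (fun i hi t ht => ?_)
    by_cases hi' : i % 2 = 1
    · rw [prof_odd h hi', Function.comp_apply]
      unfold br
      have h1 := hh.cl.maps t
      have h2 : (((i / 2) % 2 : ℕ) : ℝ) ≤ 1 := by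
        have : (i / 2) % 2 ≤ 1 := by omega
        exact_mod_cast this
      have h3 : (0 : ℝ) ≤ (((i / 2) % 2 : ℕ) : ℝ) := Nat.cast_nonneg _
      exact ⟨by linarith [h1.1], by linarith [h1.2]⟩
    · rw [prof_even h hi']
      exact (free_CL i).maps t
  · intro A hA
    rw [← real_eq_iff]
    have h1 := glue_real (h := prof h) h8 (fun i _ => (prof_cont hh.cl.cont i).measurable)
      hcont.measurable hA
    have hodd : ∀ i, i % 2 = 1 →
        lam.real (prof h i ⁻¹' A) = lam.real (br ((i / 2) % 2) ⁻¹' A) := by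
      intro i hi
      rw [prof_odd h hi, preimage_comp]
      exact hh.cl.pres_real (br_measurable _ hA)
    have heven : ∀ i, i % 2 ≠ 1 → lam.real (prof h i ⁻¹' A) = lam.real A := by
      intro i hi
      rw [prof_even h hi]
      exact (free_CL i).pres_real hA
    have hP : glue 8 (prof h) = Phi h := rfl
    rw [hP] at h1
    rw [h1]
    simp only [Finset.sum_range_succ, Finset.sum_range_zero]
    rw [heven 0 (by norm_num), hodd 1 (by norm_num), heven 2 (by norm_num), hodd 3 (by norm_num),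
      heven 4 (by norm_num), hodd 5 (by norm_num), heven 6 (by norm_num), hodd 7 (by norm_num)]
    have h2 := br_sum hA
    norm_num
    linarith
  · unfold Phi
    rw [glue_zero h8, prof_even h (by norm_num)]
    unfold free
    rw [if_pos rfl]
    exact fill_zero ⟨le_rfl, zero_le_one⟩
  · unfold Phi
    rw [glue_one h8, prof_odd h (by norm_num), Function.comp_apply, hh.one]
    unfold br
    norm_num

lemma Phi_contr {h h' : ℝ → ℝ} {c : ℝ} (hc : 0 ≤ c) (hh : ∀ x, dist (h x) (h' x) ≤ c) (x : ℝ) :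
    dist (Phi h x) (Phi h' x) ≤ c / 2 := by
  unfold Phi glue
  generalize min ⌊((8 : ℕ) : ℝ) * cl x⌋₊ (8 - 1) = i
  generalize ((8 : ℕ) : ℝ) * cl x - (i : ℕ) = t
  by_cases hi : i % 2 = 1
  · rw [prof_odd h hi, prof_odd h' hi, Function.comp_apply, Function.comp_apply]
    have h1 := hh t
    rw [Real.dist_eq] at h1 ⊢
    unfold br
    have : ((((i / 2) % 2 : ℕ) : ℝ) + h t) / 2 - ((((i / 2) % 2 : ℕ) : ℝ) + h' t) / 2 =
      (h t - h' t) / 2 := by ring
    rw [this, abs_div, abs_of_pos (by norm_num : (0:ℝ) < 2)]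
    linarith
  · rw [prof_even h hi, prof_even h' hi, dist_self]
    linarith

lemma cl_adm : Adm cl := ⟨cl_CL, cl_zero, cl_one⟩

/-- the approximating sequence -/
noncomputable def Fs : ℕ → ℝ → ℝ
  | 0 => cl
  | n + 1 => Phi (Fs n)

lemma Fs_adm (n : ℕ) : Adm (Fs n) := by
  induction n with
  | zero => exact cl_adm
  | succ n ih => exact Phi_adm ih

lemma Fs_dist (n : ℕ) (x : ℝ) : dist (Fs n x) (Fs (n + 1) x) ≤ 1 * (1 / 2) ^ n := by
  induction n generalizing x with
  | zero =>
    have h1 := (Fs_adm 0).cl.maps x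
    have h2 := (Fs_adm 1).cl.maps x
    rw [Real.dist_eq, abs_le]
    norm_num
    constructor <;> linarith [h1.1, h1.2, h2.1, h2.2]
  | succ n ih =>
    have h1 := Phi_contr (h := Fs n) (h' := Fs (n + 1)) (by positivity) ih x
    have h2 : (1 : ℝ) * (1 / 2) ^ (n + 1) = 1 * (1 / 2) ^ n / 2 := by ring
    rw [h2]
    exact h1

theorem exists_F : ∃ F : ℝ → ℝ, Adm F ∧
    ∀ a < 4, ∀ t ∈ Icc (0 : ℝ) 1, F ((2 * (a : ℕ) + 1 + t) / 8) = ((a % 2 : ℕ) + F t) / 2 := by
  have hcau : ∀ x, ∃ y, Tendsto (fun n => Fs n x) atTop (𝓝 y) := fun x =>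
    cauchySeq_tendsto_of_complete (cauchySeq_of_le_geometric (1 / 2) 1 (by norm_num)
      (fun n => Fs_dist n x))
  choose F hF using hcau
  have hdist : ∀ n x, dist (Fs n x) (F x) ≤ 1 * (1 / 2) ^ n / (1 - 1 / 2) := fun n x =>
    dist_le_of_le_geometric_of_tendsto (1 / 2) 1 (by norm_num) (fun n => Fs_dist n x) (hF x) n
  have hunif : TendstoUniformly Fs F atTop := by
    rw [Metric.tendstoUniformly_iff]
    intro ε hε
    have h1 : Tendsto (fun n : ℕ => (1 : ℝ) * (1 / 2) ^ n / (1 - 1 / 2)) atTop (𝓝 0) := by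
      have := (tendsto_pow_atTop_nhds_zero_of_lt_one (r := (1 / 2 : ℝ)) (by norm_num)
        (by norm_num)).const_mul (2 : ℝ)
      rw [mul_zero] at this
      refine this.congr (fun n => ?_)
      ring
    filter_upwards [h1.eventually (gt_mem_nhds hε)] with n hn x
    rw [dist_comm]
    exact (hdist n x).trans_lt hn
  have hcont : Continuous F :=
    hunif.continuous (Frequently.of_forall (fun n => (Fs_adm n).cl.cont))
  have hCL : CL F := CL.of_tendsto (fun n => (Fs_adm n).cl) hcont hF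
  refine ⟨F, ⟨hCL, ?_, ?_⟩, ?_⟩
  · refine tendsto_nhds_unique (hF 0) ?_
    simp only [(Fs_adm _).zero]
    exact tendsto_const_nhds
  · refine tendsto_nhds_unique (hF 1) ?_
    simp only [(Fs_adm _).one]
    exact tendsto_const_nhds
  · intro a ha t ht
    have h1 : ∀ n, Fs (n + 1) ((2 * (a : ℕ) + 1 + t) / 8) = ((a % 2 : ℕ) + Fs n t) / 2 := by
      intro n
      have h8 : 2 * a + 1 < 8 := by omega
      have hx : (2 * (a : ℝ) + 1 + t) / 8 ∈
          Icc (((2 * a + 1 : ℕ) : ℝ) / (8 : ℕ)) (((2 * a + 1 : ℕ) + 1) / (8 : ℕ)) := by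
        push_cast
        constructor
        · have := ht.1
          apply div_le_div_of_nonneg_right _ (by norm_num)
          linarith
        · have := ht.2
          apply div_le_div_of_nonneg_right _ (by norm_num)
          linarith
      have h2 : Fs (n + 1) = glue 8 (prof (Fs n)) := rfl
      rw [h2, glue_Icc (prof_match (Fs_adm n)) h8 hx, prof_odd _ (by omega), Function.comp_apply]
      unfold br
      have e1 : (2 * a + 1) / 2 = a := by omega
      rw [e1]
      congr 3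
      push_cast
      ring
    have h2 : Tendsto (fun n => Fs (n + 1) ((2 * (a : ℕ) + 1 + t) / 8)) atTop
        (𝓝 (F ((2 * (a : ℕ) + 1 + t) / 8))) := (tendsto_add_atTop_iff_nat 1).2 (hF _)
    have h3 : Tendsto (fun n => Fs (n + 1) ((2 * (a : ℕ) + 1 + t) / 8)) atTop
        (𝓝 (((a % 2 : ℕ) + F t) / 2)) := by
      simp only [h1]
      exact ((hF t).const_add _).div_const 2
    exact tendsto_nhds_unique h2 h3

/-- the self-affine start map -/
noncomputable def F : ℝ → ℝ := exists_F.choose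

lemma F_adm : Adm F := exists_F.choose_spec.1

lemma F_self : ∀ a < 4, ∀ t ∈ Icc (0 : ℝ) 1,
    F ((2 * (a : ℕ) + 1 + t) / 8) = ((a % 2 : ℕ) + F t) / 2 := exists_F.choose_spec.2

/-- the sets `W n` -/
def W : ℕ → Set ℝ
  | 0 => Icc 0 1
  | n + 1 => {x | ∃ a < 4, 8 * x - (2 * (a : ℕ) + 1) ∈ W n}

lemma W_succ_subset (n : ℕ) : W (n + 1) ⊆ W n := by
  induction n with
  | zero =>
    rintro x ⟨a, ha, h1, h2⟩
    have h3 : (a : ℝ) ≤ 3 := by exact_mod_cast (by omega : a ≤ 3)
    have h4 : (0 : ℝ) ≤ a := Nat.cast_nonneg a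
    exact ⟨by linarith, by linarith⟩
  | succ n ih =>
    rintro x ⟨a, ha, h1⟩
    exact ⟨a, ha, ih h1⟩

lemma W_anti : Antitone W := antitone_nat_of_succ_le W_succ_subset

lemma W_subset_Icc (n : ℕ) : W n ⊆ Icc 0 1 := W_anti (Nat.zero_le n)

/-- the indices of the cells of `W n` -/
def idx : ℕ → Finset ℕ
  | 0 => {0}
  | n + 1 => (Finset.range 4 ×ˢ idx n).image (fun p => (2 * p.1 + 1) * 8 ^ n + p.2)

lemma idx_lt (n : ℕ) : ∀ i ∈ idx n, i < 8 ^ n := by
  induction n with
  | zero =>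
    intro i hi
    simp [idx] at hi
    simp [hi]
  | succ n ih =>
    intro i hi
    simp only [idx, Finset.mem_image, Finset.mem_product, Finset.mem_range, Prod.exists] at hi
    obtain ⟨a, b, ⟨ha, hb⟩, rfl⟩ := hi
    have := ih b hb
    rw [pow_succ]
    nlinarith

lemma mem_W_iff (n : ℕ) (x : ℝ) : x ∈ W n ↔ ∃ i ∈ idx n, (i : ℝ) ≤ 8 ^ n * x ∧ 8 ^ n * x ≤ i + 1 := by
  induction n generalizing x with
  | zero =>
    simp [W, idx]
  | succ n ih =>
    have hp : (0 : ℝ) < 8 ^ n := by positivity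
    constructor
    · rintro ⟨a, ha, h1⟩
      obtain ⟨i, hi, h2, h3⟩ := (ih _).1 h1
      refine ⟨(2 * a + 1) * 8 ^ n + i, ?_, ?_, ?_⟩
      · simp only [idx, Finset.mem_image, Finset.mem_product, Finset.mem_range, Prod.exists]
        exact ⟨a, i, ⟨ha, hi⟩, rfl⟩
      · push_cast
        rw [pow_succ]
        linarith
      · push_cast
        rw [pow_succ]
        linarith
    · rintro ⟨j, hj, h2, h3⟩
      simp only [idx, Finset.mem_image, Finset.mem_product, Finset.mem_range, Prod.exists] at hj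
      obtain ⟨a, i, ⟨ha, hi⟩, rfl⟩ := hj
      push_cast at h2 h3
      rw [pow_succ] at h2 h3
      refine ⟨a, ha, (ih _).2 ⟨i, hi, ?_, ?_⟩⟩
      · linarith
      · linarith

lemma A1 (n : ℕ) : ∀ {A : Set ℝ}, MeasurableSet A →
    ∑ i ∈ idx n, lam.real ((fun t : ℝ => F ((i + t) / 8 ^ n)) ⁻¹' A) = 4 ^ n * lam.real A := by
  induction n with
  | zero =>
    intro A hA
    simp only [idx, Finset.sum_singleton, Nat.cast_zero, zero_add, pow_zero, div_one, one_mul]
    exact F_adm.cl.pres_real hA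
  | succ n ih =>
    intro A hA
    have hinj : Set.InjOn (fun p : ℕ × ℕ => (2 * p.1 + 1) * 8 ^ n + p.2)
        (Finset.range 4 ×ˢ idx n : Finset (ℕ × ℕ)) := by
      rintro ⟨a, i⟩ h1 ⟨b, j⟩ h2 h3
      simp only [Finset.coe_product, Set.mem_prod, Finset.mem_coe] at h1 h2
      have hi := idx_lt n i h1.2
      have hj := idx_lt n j h2.2
      simp only at h3
      have h4 : (2 * a + 1) = (2 * b + 1) := by
        have e1 : ((2 * a + 1) * 8 ^ n + i) / 8 ^ n = 2 * a + 1 := by
          rw [mul_comm, Nat.mul_add_div (by positivity), Nat.div_eq_of_lt hi, add_zero]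
        have e2 : ((2 * b + 1) * 8 ^ n + j) / 8 ^ n = 2 * b + 1 := by
          rw [mul_comm, Nat.mul_add_div (by positivity), Nat.div_eq_of_lt hj, add_zero]
        rw [← e1, ← e2, h3]
      have h5 : a = b := by omega
      subst h5
      have h6 : i = j := by omega
      rw [h6]
    have h1 : idx (n + 1) = (Finset.range 4 ×ˢ idx n).image
        (fun p => (2 * p.1 + 1) * 8 ^ n + p.2) := rfl
    rw [h1, Finset.sum_image hinj, Finset.sum_product]
    have h2 : ∀ a ∈ Finset.range 4, ∑ i ∈ idx n,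
        lam.real ((fun t : ℝ => F ((((2 * a + 1) * 8 ^ n + i : ℕ) + t) / 8 ^ (n + 1))) ⁻¹' A) =
        4 ^ n * lam.real (br (a % 2) ⁻¹' A) := by
      intro a ha
      rw [← ih (br_measurable (a % 2) hA)]
      refine Finset.sum_congr rfl (fun i hi => ?_)
      refine real_congr (fun t ht => ?_)
      rw [mem_preimage, mem_preimage, mem_preimage]
      have hp : (0 : ℝ) < 8 ^ n := by positivity
      have hi' : (i : ℝ) + 1 ≤ 8 ^ n := by exact_mod_cast idx_lt n i hi
      have h3 : ((((2 * a + 1) * 8 ^ n + i : ℕ) : ℝ) + t) / 8 ^ (n + 1) =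
          (2 * (a : ℕ) + 1 + (i + t) / 8 ^ n) / 8 := by
        push_cast
        rw [pow_succ]
        field_simp
        ring
      rw [h3, F_self a (Finset.mem_range.1 ha) ((i + t) / 8 ^ n)
        ⟨by have := ht.1; positivity, by rw [div_le_one hp]; linarith [ht.2]⟩]
      rfl
    rw [Finset.sum_congr rfl h2]
    simp only [Finset.sum_range_succ, Finset.sum_range_zero]
    have h3 := br_sum hA
    norm_num
    rw [pow_succ]
    linarith [mul_comm ((4 : ℝ) ^ n) (lam.real (br 0 ⁻¹' A)),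
      congrArg (fun z => (4 : ℝ) ^ n * z) h3]

lemma card_idx (n : ℕ) : ((idx n).card : ℝ) = 4 ^ n := by
  have := A1 n (A := univ) MeasurableSet.univ
  simpa using this

end Pool.Agent.R819.GD
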