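import Pool.Agent.R819.GD.Core2

/-!
The step lemma: approximate periodicity with high probability.
-/

namespace Pool.Agent.R819.GD

open MeasureTheory Set Topology Filter

/-- a permutation in the support of a doubly stochastic matrix -/
lemma exists_perm {N : ℕ} {X : Fin N → Fin N → ℝ} (h0 : ∀ i j, 0 ≤ X i j)
    (h1 : ∀ i, ∑ j, X i j = 1) (h2 : ∀ j, ∑ i, X i j = 1) :
    ∃ σ : Equiv.Perm (Fin N), ∀ i, 0 < X i (σ i) := by
  have hM : (Matrix.of X) ∈ doublyStochastic ℝ (Fin N) := by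
    rw [mem_doublyStochastic_iff_sum]
    exact ⟨h0, h1, h2⟩
  obtain ⟨w, hw0, hw1, hw2⟩ := exists_eq_sum_perm_of_mem_doublyStochastic hM
  have h3 : ∃ σ, 0 < w σ := by
    by_contra hcon
    push Not at hcon
    have : ∑ σ, w σ ≤ 0 := Finset.sum_nonpos (fun σ _ => hcon σ)
    linarith
  obtain ⟨σ, hσ⟩ := h3
  refine ⟨σ, fun i => ?_⟩
  have h4 : X i (σ i) = ∑ τ : Equiv.Perm (Fin N), w τ * (τ.permMatrix ℝ) i (σ i) := by
    have := congrFun (congrFun hw2 i) (σ i)
    rw [Matrix.sum_apply] at this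
    simp only [Matrix.smul_apply, smul_eq_mul, Matrix.of_apply] at this
    exact this.symm
  rw [h4]
  have hnn : ∀ τ : Equiv.Perm (Fin N), 0 ≤ (τ.permMatrix ℝ) i (σ i) := by
    intro τ
    simp only [Equiv.Perm.permMatrix, PEquiv.toMatrix_apply]
    split_ifs <;> norm_num
  have hone : (σ.permMatrix ℝ) i (σ i) = 1 := by
    simp [Equiv.Perm.permMatrix, PEquiv.toMatrix_apply]
  refine lt_of_lt_of_le ?_ (Finset.single_le_sum
    (f := fun τ : Equiv.Perm (Fin N) => w τ * (τ.permMatrix ℝ) i (σ i))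
    (fun τ _ => mul_nonneg (hw0 τ) (hnn τ)) (Finset.mem_univ σ))
  rw [hone, mul_one]
  exact hσ

theorem step {f : ℝ → ℝ} (hf : CL f) {n₀ : ℕ} (hfF : ∀ x ∈ W n₀, f x = F x) {eps : ℝ}
    (heps : 0 < eps) {k : ℕ} (hk : 1 ≤ k) :
    ∃ n ≥ n₀, ∃ g : ℝ → ℝ, ∃ m ≥ 1, CL g ∧ (∀ x ∈ W n, g x = F x) ∧
      (∀ x ∈ Icc (0 : ℝ) 1, |g x - f x| ≤ eps) ∧
      lam.real {x | 1 / (k : ℝ) < |g^[m] x - x|} ≤ 1 / k := by
  have hk' : (0 : ℝ) < k := by exact_mod_cast hk
  -- uniform continuity
  have huc : UniformContinuousOn f (Icc 0 1) :=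
    isCompact_Icc.uniformContinuousOn_of_continuous hf.cont.continuousOn
  rw [Metric.uniformContinuousOn_iff_le] at huc
  obtain ⟨δ, hδ, hδ'⟩ := huc (eps / 2) (by positivity)
  have hq : ∃ q : ℕ, (1 / ((8 ^ q : ℕ) : ℝ)) < min δ (min (eps / 4) (1 / k)) := by
    have h1 := tendsto_pow_atTop_nhds_zero_of_lt_one (r := (1 / 8 : ℝ)) (by norm_num)
      (by norm_num)
    have h2 : 0 < min δ (min (eps / 4) (1 / (k : ℝ))) := by positivity
    obtain ⟨q, hq⟩ := (h1.eventually (gt_mem_nhds h2)).exists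
    refine ⟨q, ?_⟩
    push_cast
    rw [← one_div_pow]
    exact hq
  obtain ⟨q, hq⟩ := hq
  rw [lt_min_iff, lt_min_iff] at hq
  obtain ⟨hq1, hq2, hq3⟩ := hq
  set N : ℕ := 8 ^ q with hNdef
  have hN : 0 < N := by positivity
  have hN' : (0 : ℝ) < N := by exact_mod_cast hN
  have hω : ∀ x ∈ Icc (0 : ℝ) 1, ∀ y ∈ Icc (0 : ℝ) 1, |x - y| ≤ 1 / (N : ℝ) →
      |f x - f y| ≤ eps / 2 := by
    intro x hx y hy hxy
    have := hδ' x hx y hy (by rw [Real.dist_eq]; linarith)
    rwa [Real.dist_eq] at this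
  -- permutation
  have hXr : ∀ j : Fin N, ∑ l : Fin N, lam.real (pf f N j ⁻¹' J N l) = 1 := by
    intro j
    rw [Fin.sum_univ_eq_sum_range (fun l => lam.real (pf f N j ⁻¹' J N l)) N]
    exact sum_J hN (pf_cont hf.cont N j).measurable (fun t _ => hf.maps _) (pf_null hf j.2 1)
  have hXc : ∀ l : Fin N, ∑ j : Fin N, lam.real (pf f N j ⁻¹' J N l) = 1 := by
    intro l
    rw [Fin.sum_univ_eq_sum_range (fun j => lam.real (pf f N j ⁻¹' J N l)) N,
      sum_pf hf hN (J_meas N l), lam_J l.2]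
    field_simp
  obtain ⟨σ, hσ⟩ := exists_perm (X := fun j l => lam.real (pf f N j ⁻¹' J N l))
    (fun _ _ => measureReal_nonneg) hXr hXc
  set π : ℕ → ℕ := fun j => if h : j < N then (σ ⟨j, h⟩ : ℕ) else j with hπ
  have hπeq : ∀ j (h : j < N), π j = (σ ⟨j, h⟩ : ℕ) := by
    intro j h
    simp only [hπ]
    rw [dif_pos h]
  have hπlt : ∀ j < N, π j < N := by
    intro j h
    rw [hπeq j h]
    exact (σ ⟨j, h⟩).2
  have hπsum : ∀ l < N, ∑ j ∈ Finset.range N, (if l = π j then (1 : ℝ) else 0) = 1 := by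
    intro l hl
    rw [← Fin.sum_univ_eq_sum_range (fun j => (if l = π j then (1 : ℝ) else 0)) N]
    rw [Finset.sum_eq_single (σ.symm ⟨l, hl⟩)]
    · rw [hπeq _ (σ.symm ⟨l, hl⟩).2]
      simp
    · intro j _ hj
      rw [hπeq _ j.2]
      rw [if_neg]
      intro h
      apply hj
      rw [Equiv.eq_symm_apply]
      exact Fin.ext h.symm
    · intro h
      exact absurd (Finset.mem_univ _) h
  set m : ℕ := orderOf σ with hm
  have hm1 : 1 ≤ m := orderOf_pos σ
  have hm' : (0 : ℝ) < m := by exact_mod_cast hm1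
  set κ : ℝ := 1 / (2 * k * m) with hκ
  have hκ0 : 0 < κ := by positivity
  have hκ1 : κ < 1 := by
    rw [hκ, div_lt_one (by positivity)]
    have h1 : (1 : ℝ) ≤ k := by exact_mod_cast hk
    have h2 : (1 : ℝ) ≤ m := by exact_mod_cast hm1
    nlinarith
  obtain ⟨n, hn, g, hg, hgF, hgf, hgood⟩ := step_core hf hfF q hκ0 hκ1 hω hπlt hπsum
    (fun j hj => by
      have := hσ ⟨j, hj⟩
      simp only at this
      rw [hπeq j hj]
      exact this)
  refine ⟨n, hn, g, m, hm1, hg, hgF, ?_, ?_⟩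
  · intro x hx
    refine (hgf x hx).trans ?_
    have : 2 / (N : ℝ) = 2 * (1 / N) := by ring
    rw [this]
    linarith
  · have hGm : MeasurableSet (Good N π g) := Good_meas N π hg.cont.measurable
    have hbad : lam.real (Good N π g)ᶜ ≤ κ := by
      rw [probReal_compl_eq_one_sub hGm]
      linarith
    have hsub : {x | 1 / (k : ℝ) < |g^[m] x - x|} ⊆
        ⋃ s ∈ Finset.range m, g^[s] ⁻¹' (Good N π g)ᶜ := by
      intro x hx
      by_contra hcon
      simp only [mem_iUnion, Finset.mem_range, mem_preimage, mem_compl_iff, not_exists,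
        not_not] at hcon
      obtain ⟨j, hj, hxj, -⟩ := hcon 0 (by omega)
      simp only [Function.iterate_zero, id] at hxj
      have key : ∀ s ≤ m, g^[s] x ∈ J N ((σ ^ s) ⟨j, hj⟩ : Fin N) := by
        intro s
        induction s with
        | zero =>
          intro _
          simpa using hxj
        | succ s ih =>
          intro hs
          have h1 := ih (by omega)
          obtain ⟨j', hj', h2, h3⟩ := hcon s (by omega)
          have h4 := mem_J_unique hN h1 h2
          have h4' : (⟨j', hj'⟩ : Fin N) = (σ ^ s) ⟨j, hj⟩ := Fin.ext h4.symm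
          rw [Function.iterate_succ_apply', pow_succ', Equiv.Perm.mul_apply, ← h4',
            ← hπeq j' hj']
          exact h3
      have h5 := key m le_rfl
      rw [hm, pow_orderOf_eq_one, Equiv.Perm.one_apply, ← hm] at h5
      simp only at h5
      have h6 : |g^[m] x - x| ≤ 1 / N := by
        have a1 := h5.1; have a2 := h5.2; have a3 := hxj.1; have a4 := hxj.2
        have a5 : ((j : ℝ) + 1) / N = j / N + 1 / N := by ring
        rw [a5] at a2 a4
        rw [abs_le]
        constructor <;> linarith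
      have h7 : 1 / (k : ℝ) < |g^[m] x - x| := hx
      linarith
    refine (measureReal_mono hsub (measure_ne_top _ _)).trans
      ((measureReal_biUnion_finset_le _ _).trans ?_)
    have h1 : ∀ s ∈ Finset.range m, lam.real (g^[s] ⁻¹' (Good N π g)ᶜ) ≤ κ := by
      intro s _
      rw [(hg.mp.iterate s).measureReal_preimage hGm.compl.nullMeasurableSet]
      exact hbad
    refine (Finset.sum_le_sum h1).trans ?_
    rw [Finset.sum_const, Finset.card_range, nsmul_eq_mul, hκ]
    rw [show (m : ℝ) * (1 / (2 * k * m)) = 1 / (2 * k) by field_simp]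
    exact one_div_le_one_div_of_le hk' (by linarith)

end Pool.Agent.R819.GD
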